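import Pool.Agent.Lib.helper79.Brouwer
import Mathlib.Topology.MetricSpace.HausdorffDistance
import Mathlib.Topology.Connected.Clopen

/-!
Chains of small steps inside a set, and the covering lemma on a power of a continuum.
-/

set_option autoImplicit false

open Metric Set Filter Topology

namespace Pool.Agent.MP_df941e_gt

section Chains

variable {X Y : Type*} [PseudoMetricSpace X] [PseudoMetricSpace Y]

/-- `a` and `b` are joined inside `U` by a chain with steps shorter than `θ` -/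
def Ch (U : Set X) (θ : ℝ) (a b : X) : Prop :=
  a ∈ U ∧ Relation.ReflTransGen (fun u v => v ∈ U ∧ dist u v < θ) a b

variable {U : Set X} {θ : ℝ} {a b c : X}

lemma Ch.refl (ha : a ∈ U) : Ch U θ a a := ⟨ha, .refl⟩

lemma Ch.step (ha : a ∈ U) (hb : b ∈ U) (h : dist a b < θ) : Ch U θ a b :=
  ⟨ha, .single ⟨hb, h⟩⟩

lemma Ch.trans (h : Ch U θ a b) (h' : Ch U θ b c) : Ch U θ a c := ⟨h.1, h.2.trans h'.2⟩

lemma Ch.right (h : Ch U θ a b) : b ∈ U := by
  obtain ⟨ha, h⟩ := h
  induction h with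
  | refl => exact ha
  | tail _ h _ => exact h.1

lemma Ch.symm (h : Ch U θ a b) : Ch U θ b a := by
  obtain ⟨ha, h⟩ := h
  induction h with
  | refl => exact .refl ha
  | tail h1 h ih => exact (Ch.step h.1 ih.1 (by rw [dist_comm]; exact h.2)).trans ih

lemma Ch.map {V : Set Y} {θ' : ℝ} (f : X → Y) (hU : ∀ u ∈ U, f u ∈ V)
    (hθ : ∀ u v, dist u v < θ → dist (f u) (f v) < θ') (h : Ch U θ a b) :
    Ch V θ' (f a) (f b) := by
  obtain ⟨ha, h⟩ := h
  induction h with
  | refl => exact .refl (hU _ ha)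
  | tail h1 h ih => exact ih.trans (.step ih.right (hU _ h.1) (hθ _ _ h.2))

lemma Ch.mono {V : Set X} {θ' : ℝ} (hU : U ⊆ V) (hθ : θ ≤ θ') (h : Ch U θ a b) : Ch V θ' a b :=
  h.map id (fun _ hu => hU hu) fun _ _ h => h.trans_le hθ

lemma Ch.of_preconnected {S : Set X} (hS : IsPreconnected S) (hU : S ⊆ U) (hθ : 0 < θ)
    (ha : a ∈ S) (hb : b ∈ S) : Ch U θ a b := by
  refine hS.induction₂ (fun u v => Ch U θ u v) (fun x hx => ?_)
    (fun _ _ _ _ _ _ h h' => h.trans h') (fun _ _ _ _ h => h.symm) ha hb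
  filter_upwards [self_mem_nhdsWithin, mem_nhdsWithin_of_mem_nhds (ball_mem_nhds x hθ)]
    with y hy hxy
  exact .step (hU hx) (hU hy) (by rw [dist_comm]; exact hxy)

lemma Ch.shrink {y : X} {ρ : ℝ} (h : Ch (ball y ρ) θ a b) :
    ∃ ρ' < ρ, Ch (ball y ρ') θ a b := by
  obtain ⟨ha, h⟩ := h
  induction h with
  | refl =>
    obtain ⟨r, h1, h2⟩ := exists_between (mem_ball.1 ha)
    exact ⟨r, h2, .refl h1⟩
  | tail h1 h ih =>
    obtain ⟨r, h1, h2⟩ := exists_between (mem_ball.1 h.1)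
    obtain ⟨r', h3, h4⟩ := ih
    have h5 := h4.mono (ball_subset_ball (le_max_right r r')) le_rfl
    exact ⟨max r r', max_lt h2 h3,
      h5.trans (.step h5.right (ball_subset_ball (le_max_left r r') h1) h.2)⟩

variable {T : Type*} [TopologicalSpace T]

lemma isOpen_ch {y a b : T → X} (hy : Continuous y) (ha : Continuous a) (hb : Continuous b)
    (ρ : ℝ) (hθ : 0 < θ) : IsOpen {t | Ch (ball (y t) ρ) θ (a t) (b t)} := by
  refine isOpen_iff_mem_nhds.2 fun t ht => ?_
  replace ht : Ch (ball (y t) ρ) θ (a t) (b t) := ht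
  obtain ⟨r, hr, h⟩ := Ch.shrink ht
  have e1 : ∀ᶠ s in 𝓝 t, dist (y t) (y s) < ρ - r :=
    (isOpen_lt (by fun_prop) continuous_const).mem_nhds (by simpa using hr)
  have e2 : ∀ᶠ s in 𝓝 t, dist (a s) (a t) < θ :=
    (isOpen_lt (by fun_prop) continuous_const).mem_nhds (by simpa using hθ)
  have e3 : ∀ᶠ s in 𝓝 t, dist (b t) (b s) < θ :=
    (isOpen_lt (by fun_prop) continuous_const).mem_nhds (by simpa using hθ)
  have e4 : ∀ᶠ s in 𝓝 t, dist (a s) (y s) < ρ :=
    (isOpen_lt (by fun_prop) continuous_const).mem_nhds ht.1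
  have e5 : ∀ᶠ s in 𝓝 t, dist (b s) (y s) < ρ :=
    (isOpen_lt (by fun_prop) continuous_const).mem_nhds (mem_ball.1 ht.right)
  filter_upwards [e1, e2, e3, e4, e5] with s h1 h2 h3 h4 h5
  have h6 : Ch (ball (y s) ρ) θ (a t) (b t) :=
    h.mono (ball_subset_ball' (by linarith)) le_rfl
  exact ((Ch.step (mem_ball.2 h4) h6.1 h2).trans h6).trans (.step h6.right (mem_ball.2 h5) h3)

lemma isOpen_not_ch {a b : T → X} (ha : Continuous a) (hb : Continuous b) (hU : IsOpen U)
    (hθ : 0 < θ) : IsOpen {t | a t ∈ U ∧ b t ∈ U ∧ ¬ Ch U θ (a t) (b t)} := by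
  refine isOpen_iff_mem_nhds.2 fun t ht => ?_
  have e2 : ∀ᶠ s in 𝓝 t, dist (a t) (a s) < θ :=
    (isOpen_lt (by fun_prop) continuous_const).mem_nhds (by simpa using hθ)
  have e3 : ∀ᶠ s in 𝓝 t, dist (b s) (b t) < θ :=
    (isOpen_lt (by fun_prop) continuous_const).mem_nhds (by simpa using hθ)
  filter_upwards [e2, e3, (hU.preimage ha).mem_nhds ht.1, (hU.preimage hb).mem_nhds ht.2.1]
    with s h2 h3 h4 h5
  exact ⟨h4, h5, fun h => ht.2.2 (((Ch.step ht.1 h4 h2).trans h).trans (.step h5 ht.2.1 h3))⟩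

lemma Ch.exists_seq (h : Ch U θ a b) (hθ : 0 < θ) : ∃ (M : ℕ) (c : ℕ → X), c 0 = a ∧
    (∀ i, M ≤ i → c i = b) ∧ ∀ i, dist (c i) (c (i + 1)) < θ := by
  obtain ⟨-, h⟩ := h
  induction h with
  | refl => exact ⟨0, fun _ => a, rfl, fun _ _ => rfl, fun _ => by simpa using hθ⟩
  | @tail u v h1 h ih =>
    obtain ⟨M, c, h0, hM, hc⟩ := ih
    refine ⟨M + 1, fun i => if i ≤ M then c i else v, by simp [h0], fun i hi => ?_, fun i => ?_⟩
    · simp [show ¬ i ≤ M by omega]
    · rcases lt_trichotomy i M with hi | hi | hi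
      · simpa [hi.le, Nat.succ_le_of_lt hi] using hc i
      · subst hi
        simpa [hM i le_rfl] using h.2
      · simpa [show ¬ i ≤ M by omega, show ¬ i + 1 ≤ M by omega] using hθ

end Chains

open Pool.Agent.Lib.helper79 in
/-- the theorem of Poincare and Miranda -/
theorem miranda {n : ℕ} {G : (Fin n → ℝ) → Fin n → ℝ} (hG : Continuous G)
    (h0 : ∀ z k, z k = -1 → G z k ≤ 0) (h1 : ∀ z k, z k = 1 → 0 ≤ G z k) :
    ∃ z, ‖z‖ ≤ 1 ∧ G z = 0 := by
  obtain ⟨z, hz, hfix⟩ := brouwer_cube (f := fun z => clamp (z - G z))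
    (clamp_cont.comp (by fun_prop)).continuousOn
    (fun z _ => mem_closedBall_zero_iff.2 (norm_clamp_le _))
  refine ⟨z, mem_closedBall_zero_iff.1 hz, funext fun k => ?_⟩
  have hk : max (-1) (min 1 (z k - G z k)) = z k := congrFun hfix k
  have a0 := h0 z k
  have a1 := h1 z k
  show G z k = 0
  rcases le_total 1 (z k - G z k) with h | h
  · rw [min_eq_left h, max_eq_right (by norm_num)] at hk
    have := a1 hk.symm
    linarith
  · rw [min_eq_right h] at hk
    rcases le_total (-1) (z k - G z k) with h' | h'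
    · rw [max_eq_right h'] at hk
      linarith
    · rw [max_eq_left h'] at hk
      have := a0 hk.symm
      linarith

variable {C : Type*} [MetricSpace C] [CompactSpace C] [PreconnectedSpace C]

/-- the same theorem on a power of a continuum -/
theorem miranda' {n : ℕ} (a b : C) {G : (Fin n → C) → Fin n → ℝ} (hG : Continuous G)
    (h0 : ∀ t k, t k = a → G t k ≤ 0) (h1 : ∀ t k, t k = b → 0 ≤ G t k) : ∃ t, G t = 0 := by
  by_contra hcon
  push Not at hcon
  obtain ⟨t0, -, ht0⟩ := isCompact_univ.exists_isMinOn ⟨fun _ => a, mem_univ _⟩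
    hG.norm.continuousOn
  have hγ : 0 < ‖G t0‖ := norm_pos_iff.2 (hcon t0)
  obtain ⟨ε, hε, hu⟩ := Metric.uniformContinuous_iff.1
    (CompactSpace.uniformContinuous_of_continuous hG) _ hγ
  obtain ⟨M, c, hc0, hcM, hc⟩ :=
    (Ch.of_preconnected isPreconnected_univ Subset.rfl hε (mem_univ a) (mem_univ b)).exists_seq hε
  set w : (Fin n → Fin (M + 1)) → (Fin n → ℝ) → ℝ :=
    fun m z => ∏ k, max 0 (1 - |M * (z k + 1) / 2 - (m k : ℕ)|) with hw
  have hw0 : ∀ m z, 0 ≤ w m z := fun m z => Finset.prod_nonneg fun k _ => le_max_left _ _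
  have hwpos : ∀ m z, w m z ≠ 0 → ∀ k, |M * (z k + 1) / 2 - (m k : ℕ)| < 1 := by
    intro m z h k
    have := Finset.prod_ne_zero_iff.1 h k (Finset.mem_univ k)
    by_contra hh
    exact this (max_eq_left (by linarith))
  have hb0 : ∀ (z : Fin n → ℝ) k, z k = -1 → ∑ m, w m z * G (fun i => c (m i)) k ≤ 0 := by
    intro z k hk
    refine Finset.sum_nonpos fun m _ => ?_
    by_cases h : w m z = 0
    · simp [h]
    · have h2 := hwpos m z h k
      rw [hk] at h2
      have h3 : (m k : ℕ) = 0 := by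
        have : ((m k : ℕ) : ℝ) < 1 := by simpa using h2
        exact Nat.lt_one_iff.1 (by exact_mod_cast this)
      exact mul_nonpos_of_nonneg_of_nonpos (hw0 m z) (h0 _ k (by rw [h3, hc0]))
  have hb1 : ∀ (z : Fin n → ℝ) k, z k = 1 → 0 ≤ ∑ m, w m z * G (fun i => c (m i)) k := by
    intro z k hk
    refine Finset.sum_nonneg fun m _ => ?_
    by_cases h : w m z = 0
    · simp [h]
    · have h2 := (abs_lt.1 (hwpos m z h k)).2
      rw [hk] at h2
      have h3 : M ≤ (m k : ℕ) := by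
        have : (M : ℝ) < (m k : ℕ) + 1 := by linarith
        exact Nat.lt_succ_iff.1 (by exact_mod_cast this)
      exact mul_nonneg (hw0 m z) (h1 _ k (hcM _ h3))
  obtain ⟨z, hz, hzero⟩ := miranda (G := fun z k => ∑ m, w m z * G (fun i => c (m i)) k)
    (by simp only [hw]; fun_prop) hb0 hb1
  have hzk : ∀ k, 0 ≤ M * (z k + 1) / 2 ∧ M * (z k + 1) / 2 ≤ M := by
    intro k
    have := abs_le.1 ((norm_le_pi_norm z k).trans hz)
    have hM : (0 : ℝ) ≤ M := Nat.cast_nonneg M
    constructor <;> nlinarith [this.1, this.2]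
  set m0 : Fin n → Fin (M + 1) := fun k => ⟨⌊M * (z k + 1) / 2⌋₊,
    Nat.lt_succ_iff.2 (Nat.floor_le_of_le (hzk k).2)⟩ with hm0
  have hm1 : ∀ k, |M * (z k + 1) / 2 - (m0 k : ℕ)| < 1 := by
    intro k
    have a1 := Nat.floor_le (hzk k).1
    have a2 := Nat.lt_floor_add_one (M * (z k + 1) / 2)
    simp only [hm0]
    rw [abs_lt]
    constructor <;> linarith
  have hw1 : 0 < w m0 z := Finset.prod_pos fun k _ => lt_max_of_lt_right (by linarith [hm1 k])
  have hclose : ∀ m, w m z ≠ 0 →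
      dist (G fun i => c (m i)) (G fun i => c (m0 i)) < ‖G t0‖ := by
    intro m hm
    refine hu ((dist_pi_lt_iff hε).2 fun k => ?_)
    have a1 := abs_lt.1 (hwpos m z hm k)
    have a2 := abs_lt.1 (hm1 k)
    have a3 : (m k : ℕ) < (m0 k : ℕ) + 2 := by
      have : ((m k : ℕ) : ℝ) < (m0 k : ℕ) + 2 := by linarith [a1.1, a2.2]
      exact_mod_cast this
    have a4 : (m0 k : ℕ) < (m k : ℕ) + 2 := by
      have : ((m0 k : ℕ) : ℝ) < (m k : ℕ) + 2 := by linarith [a1.2, a2.1]
      exact_mod_cast this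
    rcases lt_trichotomy (m k : ℕ) (m0 k) with h | h | h
    · rw [show (m0 k : ℕ) = m k + 1 by omega]
      exact hc _
    · simpa [h] using hε
    · rw [show (m k : ℕ) = m0 k + 1 by omega, dist_comm]
      exact hc _
  obtain ⟨k, hk⟩ : ∃ k, ‖G t0‖ ≤ |G (fun i => c (m0 i)) k| := by
    by_contra hh
    push Not at hh
    exact absurd ((pi_norm_lt_iff hγ).2 hh) (not_lt.2 (ht0 (mem_univ _)))
  have hs : (∑ m, w m z * G (fun i => c (m i)) k) * G (fun i => c (m0 i)) k = 0 := by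
    have : ∑ m, w m z * G (fun i => c (m i)) k = 0 := congrFun hzero k
    rw [this, zero_mul]
  rw [Finset.sum_mul] at hs
  have hsg : ∀ m, w m z ≠ 0 → 0 < G (fun i => c (m i)) k * G (fun i => c (m0 i)) k := by
    intro m hm
    have a1 := abs_lt.1 (show |_ - _| < _ from (dist_le_pi_dist _ _ k).trans_lt (hclose m hm))
    rcases le_abs.1 hk with h | h
    · exact mul_pos (by linarith [a1.1]) (by linarith)
    · exact mul_pos_of_neg_of_neg (by linarith [a1.2]) (by linarith)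
  refine absurd hs (Finset.sum_pos' (fun m _ => ?_) ⟨m0, Finset.mem_univ _, ?_⟩).ne'
  · by_cases h : w m z = 0
    · simp [h]
    · rw [mul_assoc]
      exact mul_nonneg (hw0 m z) (hsg m h).le
  · rw [mul_assoc]
    exact mul_pos hw1 (hsg m0 hw1.ne')

/-- the covering lemma: `N + 1` open sets that cover and miss the right faces share a point -/
theorem cube_cover (a b : C) (N : ℕ) (A : ℕ → Set (ℕ → C)) (hA : ∀ k, IsOpen (A k))
    (hc : ∀ t, ∃ k ≤ N, t ∈ A k) (ha : ∀ k < N, ∀ t ∈ A (k + 1), t k ≠ a)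
    (hb : ∀ k < N, ∀ t ∈ A k, t k ≠ b) : ∃ t, ∀ k ≤ N, t ∈ A k := by
  rcases N.eq_zero_or_pos with rfl | hN
  · obtain ⟨k, hk, h⟩ := hc fun _ => a
    exact ⟨_, fun j hj => by rwa [Nat.le_zero.1 hj, ← Nat.le_zero.1 hk]⟩
  set e : (Fin N → C) → ℕ → C := fun t i => if h : i < N then t ⟨i, h⟩ else a with he
  have hec : Continuous e := by
    refine continuous_pi fun i => ?_
    by_cases h : i < N
    · simp only [he, h, dite_true]
      fun_prop
    · simp only [he, h, dite_false]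
      fun_prop
  have hek : ∀ t (k : Fin N), e t k = t k := fun t k => by simp [he]
  set ψ : ℕ → (Fin N → C) → ℝ := fun k t => infDist t (e ⁻¹' A k)ᶜ with hψ
  have hψ0 : ∀ k t, 0 ≤ ψ k t := fun k t => infDist_nonneg
  have hψ1 : ∀ k t, e t ∉ A k → ψ k t = 0 := fun k t h => infDist_zero_of_mem h
  have hψ2 : ∀ k ≤ N, ∀ t, e t ∈ A k → 0 < ψ k t := by
    intro k hk t h
    refine (((hA k).preimage hec).isClosed_compl.notMem_iff_infDist_pos ?_).1 (by simpa using h)
    rcases k with _ | k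
    · exact ⟨fun _ => b, fun h => hb 0 hN _ h (hek (fun _ => b) ⟨0, hN⟩)⟩
    · exact ⟨fun _ => a, fun h => ha k hk _ h (hek (fun _ => a) ⟨k, hk⟩)⟩
  obtain ⟨t, ht⟩ := miranda' a b (G := fun t (k : Fin N) => ψ (k + 1) t - ψ k t)
    (continuous_pi fun k => (continuous_infDist_pt _).sub (continuous_infDist_pt _))
    (fun t k hk => by
      have := hψ1 (k + 1) t fun h => ha k k.2 _ h ((hek t k).trans hk)
      linarith [hψ0 k t])
    (fun t k hk => by
      have := hψ1 k t fun h => hb k k.2 _ h ((hek t k).trans hk)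
      linarith [hψ0 (k + 1) t])
  have hall : ∀ k ≤ N, ψ k t = ψ 0 t := by
    intro k hk
    induction k with
    | zero => rfl
    | succ k ih =>
      have : ψ (k + 1) t - ψ k t = 0 := congrFun ht ⟨k, hk⟩
      linarith [ih (by omega)]
  obtain ⟨k, hk, h⟩ := hc (e t)
  refine ⟨e t, fun j hj => by_contra fun hh => ?_⟩
  linarith [hψ1 j t hh, hψ2 k hk t h, hall j hj, hall k hk]

end Pool.Agent.MP_df941e_gt
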