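import Pool.Agent.MP_df941e_gt.Eff
import Mathlib.Topology.Connected.PathConnected
import Mathlib.Topology.LocallyConstant.Basic
import Mathlib.Analysis.Normed.Module.Convex

/-!
Conjugation along a connected equicontinuous set of homeomorphisms, and the transport of near
points along a path.
-/

set_option autoImplicit false

open Metric Set Filter Topology

namespace Pool.Agent.MP_df941e_gt

variable {X : Type*} [MetricSpace X] [CompactSpace X]

/-- conjugation by `ψ` moves the images of `c` under small homeomorphisms inside small connected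
sets -/
def Cen (ε : ℝ) (c : X) (ψ : X ≃ₜ X) : Prop :=
  ∃ δ > 0, ∀ h : X ≃ₜ X, (∀ z, dist (h z) z < δ) →
    ∃ B, IsPreconnected B ∧ B ⊆ ball c ε ∧ ψ (h (ψ.symm c)) ∈ B ∧ h c ∈ B

lemma cen_of_family {S : Set C(X, X)} (h1 : IsPreconnected S) (h2 : TotallyBounded S)
    (h3 : ContinuousMap.id X ∈ S) (h4 : ∀ f ∈ S, Function.Bijective f) {f : C(X, X)} (hf : f ∈ S)
    {ψ : X ≃ₜ X} (hψ : ∀ x, ψ x = f x) (c : X) {ε : ℝ} (hε : 0 < ε) : Cen ε c ψ := by
  have hK : IsCompact (closure S ×ˢ (univ : Set X)) :=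
    (h2.closure.isCompact_of_isClosed isClosed_closure).prod isCompact_univ
  obtain ⟨δ, hδ, hu⟩ := Metric.uniformContinuousOn_iff.1 (hK.uniformContinuousOn_of_continuous
    (f := fun p : C(X, X) × X => p.1 p.2) (by fun_prop)) ε hε
  choose w hw using fun g : S => (h4 g.1 g.2).2 c
  have hc : Continuous w := by
    refine continuous_iff_isClosed.2 fun C hC => ?_
    have e : w ⁻¹' C = Prod.fst '' ({p : S × X | p.1.1 p.2 = c} ∩ Prod.snd ⁻¹' C) := by
      ext g
      refine ⟨fun hg => ⟨(g, w g), ⟨hw g, hg⟩, rfl⟩, ?_⟩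
      rintro ⟨⟨g, x⟩, ⟨a, b⟩, rfl⟩
      have : w g = x := (h4 g.1 g.2).1 ((hw g).trans a.symm)
      exact (this ▸ b : w g ∈ C)
    rw [e]
    exact isClosedMap_fst_of_compactSpace _
      ((isClosed_eq (by fun_prop) continuous_const).inter (hC.preimage continuous_snd))
  have : PreconnectedSpace S := Subtype.preconnectedSpace h1
  refine ⟨δ, hδ, fun h hh => ⟨range fun g : S => g.1 (h (w g)),
    isPreconnected_range (by fun_prop), ?_, ⟨⟨f, hf⟩, ?_⟩, ⟨⟨_, h3⟩, ?_⟩⟩⟩
  · rintro _ ⟨g, rfl⟩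
    have := hu (g.1, h (w g)) ⟨subset_closure g.2, trivial⟩ (g.1, w g)
      ⟨subset_closure g.2, trivial⟩ (by simpa using hh (w g))
    rwa [hw g] at this
  · have : w ⟨f, hf⟩ = ψ.symm c := by
      rw [Homeomorph.eq_symm_apply, hψ]
      exact hw ⟨f, hf⟩
    rw [hψ, ← this]
  · have : w ⟨_, h3⟩ = c := hw ⟨_, h3⟩
    simp [this]

/-- `ψ` sends `z` to a point that is joined to `c` inside the ball -/
def Jn (ε : ℝ) (c : X) (ψ : X ≃ₜ X) (z : X) : Prop :=
  Cen ε c ψ ∧ ∃ A, IsPreconnected A ∧ A ⊆ ball c ε ∧ ψ z ∈ A ∧ c ∈ A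

lemma Jn.chain {ε : ℝ} {c z : X} {ψ : X ≃ₜ X} (hJ : Jn ε c ψ z) (hε : 0 < ε) :
    ∃ δ > 0, ∀ h : X ≃ₜ X, (∀ z, dist (h z) z < δ) → ∀ θ > 0,
      Ch (closedBall c (2 * ε)) θ (ψ (h z)) (h c) := by
  obtain ⟨⟨δ, hδ, H⟩, A, a1, a2, a3, a4⟩ := hJ
  obtain ⟨δ', hδ', hu⟩ := Metric.uniformContinuous_iff.1
    (CompactSpace.uniformContinuous_of_continuous ψ.continuous) ε hε
  refine ⟨min δ δ', lt_min hδ hδ', fun h hh θ hθ => ?_⟩
  obtain ⟨B, b1, b2, b3, b4⟩ := H h fun z => (hh z).trans_le (min_le_left _ _)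
  refine (Ch.of_preconnected (a1.image (fun a => ψ (h (ψ.symm a))) (by fun_prop)) ?_ hθ
    ⟨_, a3, by simp⟩ ⟨_, a4, rfl⟩).trans (Ch.of_preconnected b1
      (b2.trans (ball_subset_closedBall.trans (closedBall_subset_closedBall (by linarith))))
      hθ b3 b4)
  rintro _ ⟨a, ha, rfl⟩
  have e1 := hu ((hh (ψ.symm a)).trans_le (min_le_right _ _))
  rw [ψ.apply_symm_apply] at e1
  have e2 := mem_ball.1 (a2 ha)
  exact mem_closedBall.2 (by linarith [dist_triangle (ψ (h (ψ.symm a))) a c])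

/-- two such maps send the points near `z` to the same component -/
lemma junction (hom : ∀ x y : X, ∃ h : X ≃ₜ X, h x = y) {ε : ℝ} {c z : X} {ψ ψ' : X ≃ₜ X}
    (hJ : Jn ε c ψ z) (hJ' : Jn ε c ψ' z) (hε : 0 < ε) :
    ∀ᶠ w in 𝓝 z, ψ' w ∈ connectedComponentIn (closedBall c (2 * ε)) (ψ w) := by
  have near : ∀ {φ : X ≃ₜ X}, Jn ε c φ z → ∀ᶠ w in 𝓝 z, φ w ∈ closedBall c (2 * ε) := by
    rintro φ ⟨-, A, -, a2, a3, -⟩
    exact φ.continuous.continuousAt.eventually (mem_of_superset (isOpen_ball.mem_nhds (a2 a3))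
      (ball_subset_closedBall.trans (closedBall_subset_closedBall (by linarith))))
  obtain ⟨δ, hδ, H⟩ := hJ.chain hε
  obtain ⟨δ', hδ', H'⟩ := hJ'.chain hε
  obtain ⟨η, hη, hE⟩ := effros hom (lt_min hδ hδ')
  filter_upwards [near hJ, near hJ', ball_mem_nhds z hη] with w h1 h2 h3
  refine mem_component (isCompact_closedBall _ _) fun θ hθ => ?_
  obtain ⟨θ', hθ', hb⟩ := Metric.eventually_nhds_iff.1
    ((Metric.tendsto_nhds.1 (ψ.continuous.tendsto w) θ hθ).and
      (Metric.tendsto_nhds.1 (ψ'.continuous.tendsto w) θ hθ))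
  obtain ⟨h, hh, hd⟩ := hE z w (mem_ball'.1 h3) θ' hθ'
  have c1 := H h (fun z => (hh z).trans_le (min_le_left _ _)) θ hθ
  have c2 := H' h (fun z => (hh z).trans_le (min_le_right _ _)) θ hθ
  exact ((Ch.step c1.1 h1 (hb hd).1).symm.trans c1).trans
    (c2.symm.trans (Ch.step c2.1 h2 (hb hd).2))

omit [CompactSpace X] in
lemma comp_iff {F : Set X} {c u v : X} (h : v ∈ connectedComponentIn F u) :
    u ∈ connectedComponentIn F c ↔ v ∈ connectedComponentIn F c := by
  have hu : u ∈ F := connectedComponentIn_nonempty_iff.1 ⟨v, h⟩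
  exact ⟨fun k => connectedComponentIn_eq k ▸ h, fun k => by
    rw [connectedComponentIn_eq k, ← connectedComponentIn_eq h]
    exact mem_connectedComponentIn hu⟩

/-- the end points of the paths near a given path are sent into one small component -/
lemma transport (hom : ∀ x y : X, ∃ h : X ≃ₜ X, h x = y) {ε : ℝ} (hε : 0 < ε) {c : X}
    (H : ∀ z, ∃ ψ, Jn ε c ψ z) (γ₀ : C(unitInterval, X)) (h0 : γ₀ 0 = c) :
    ∃ ψ : X ≃ₜ X, ∀ᶠ γ in 𝓝[{γ : C(unitInterval, X) | γ 0 = c}] γ₀,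
      ψ (γ 1) ∈ connectedComponentIn (closedBall c (2 * ε)) c := by
  choose ψ hψ using H
  set π : ℝ → unitInterval := projIcc 0 1 zero_le_one with hπ
  have cπ : Continuous π := continuous_projIcc
  set Φ : ℝ → Prop := fun t => ∀ᶠ γ in 𝓝[{γ : C(unitInterval, X) | γ 0 = c}] γ₀,
    ψ (γ₀ (π t)) (γ (π t)) ∈ connectedComponentIn (closedBall c (2 * ε)) c with hΦ
  have loc : IsLocallyConstant Φ := by
    refine (IsLocallyConstant.iff_eventually_eq Φ).2 fun τ => ?_
    obtain ⟨hc, A, a1, a2, a3, a4⟩ := hψ (γ₀ (π τ))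
    set φ := ψ (γ₀ (π τ))
    obtain ⟨r, hr, hb⟩ := Metric.eventually_nhds_iff_ball.1
      ((show Continuous fun s => φ (γ₀ (π s)) by fun_prop).continuousAt.eventually
        (isOpen_ball.mem_nhds (a2 a3)))
    obtain ⟨δ, hδ, hu⟩ := Metric.uniformContinuous_iff.1
      (CompactSpace.uniformContinuous_of_continuous φ.continuous) ε hε
    have pc : ∀ γ : C(unitInterval, X), IsPreconnected ((fun s => φ (γ (π s))) '' ball τ r) :=
      fun γ => (convex_ball τ r).isPreconnected.image _ (by fun_prop)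
    filter_upwards [ball_mem_nhds τ hr] with s hs
    have j := junction hom (hψ (γ₀ (π s))) (ψ' := φ) ⟨hc, A ∪ (fun s => φ (γ₀ (π s))) '' ball τ r,
      a1.union _ a3 (mem_image_of_mem _ (mem_ball_self hr)) (pc γ₀),
      union_subset a2 (by rintro _ ⟨t, ht, rfl⟩; exact hb t ht),
      Or.inr ⟨s, hs, rfl⟩, Or.inl a4⟩ hε
    refine propext (eventually_congr (Eventually.filter_mono nhdsWithin_le_nhds ?_))
    filter_upwards [(show Continuous fun γ : C(unitInterval, X) => γ (π s) by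
      fun_prop).continuousAt.eventually j, ball_mem_nhds γ₀ hδ] with γ k1 k2
    refine (comp_iff k1).trans (comp_iff ((pc γ).subset_connectedComponentIn ⟨s, hs, rfl⟩ ?_
      ⟨τ, mem_ball_self hr, rfl⟩))
    rintro _ ⟨t, ht, rfl⟩
    have e1 := hu ((ContinuousMap.dist_apply_le_dist (π t)).trans_lt (mem_ball.1 k2))
    have e2 := mem_ball.1 (hb t ht)
    exact mem_closedBall.2 (by linarith [dist_triangle (φ (γ (π t))) (φ (γ₀ (π t))) c])
  have p0 : π 0 = 0 := projIcc_left _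
  have p1 : π 1 = 1 := projIcc_right _
  have z : Φ 0 := by
    obtain ⟨-, A, a1, a2, a3, a4⟩ := hψ c
    filter_upwards [self_mem_nhdsWithin] with γ hγ
    rw [p0, h0, show γ 0 = c from hγ]
    exact a1.subset_connectedComponentIn a4
      (a2.trans (ball_subset_closedBall.trans (closedBall_subset_closedBall (by linarith)))) a3
  rw [loc.apply_eq_of_preconnectedSpace 0 1, hΦ] at z
  simp only [p1] at z
  exact ⟨_, z⟩

theorem lc_of_jn [PathConnectedSpace X] (hom : ∀ x y : X, ∃ h : X ≃ₜ X, h x = y)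
    (H : ∀ ε > 0, ∀ c z : X, ∃ ψ, Jn ε c ψ z) : LocallyConnectedSpace X := by
  refine lc_of_chains hom fun R hR => ?_
  obtain ⟨c⟩ : Nonempty X := inferInstance
  have hε : 0 < R / 5 := by positivity
  set K := closure (connectedComponentIn (closedBall c (2 * (R / 5))) c)
  have hK : K ⊆ closedBall c (2 * (R / 5)) :=
    closure_minimal (connectedComponentIn_subset _ _) isClosed_closedBall
  choose! ψ hψ using transport hom hε (H _ hε c)
  obtain ⟨T, -, hT, hc⟩ := TopologicalSpace.countable_cover_nhdsWithin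
    (s := {γ : C(unitInterval, X) | γ 0 = c}) hψ
  have := hT.to_subtype
  obtain ⟨t, ht⟩ := nonempty_interior_of_iUnion_of_closed (f := fun t : T => ψ t ⁻¹' K)
    (fun t => isClosed_closure.preimage (ψ t).continuous) (by
      refine eq_univ_of_forall fun y => ?_
      obtain ⟨γ⟩ := PathConnectedSpace.joined c y
      obtain ⟨t, ht, hy⟩ := mem_iUnion₂.1 (hc (show γ.toContinuousMap ∈ _ from γ.source))
      refine mem_iUnion.2 ⟨⟨t, ht⟩, subset_closure ?_⟩
      simpa using hy)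
  rw [← (ψ t).preimage_interior] at ht
  obtain ⟨x, hx⟩ := ht
  obtain ⟨η, hη, hb⟩ := Metric.mem_nhds_iff.1 (mem_interior_iff_mem_nhds.1 hx)
  have hv := hb (mem_ball_self hη)
  refine ⟨η, hη, fun θ hθ => ⟨ψ t x, fun y hy => Ch.of_preconnected
    isPreconnected_connectedComponentIn.closure (fun u hu => ?_) hθ hv (hb (mem_ball'.2 hy))⟩⟩
  have e1 := mem_closedBall.1 (hK hu)
  have e2 := mem_closedBall.1 (hK hv)
  exact mem_ball.2 (by linarith [dist_triangle_right u (ψ t x) c])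

end Pool.Agent.MP_df941e_gt
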