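import Pool.Agent.MP_df941e_gt.Eff

/-!
The labelling argument: a homogeneous compact metric space whose identity is joined, through a
continuum of maps, to a map that merges near points has points with chain connected surroundings.
-/

set_option autoImplicit false

open Metric Set Filter Topology

namespace Pool.Agent.MP_df941e_gt

lemma open_all {T : Type*} [TopologicalSpace T] {ι : Sort*} [Finite ι] {p : ι → T → Prop}
    (h : ∀ i, IsOpen {t | p i t}) : IsOpen {t | ∀ i, p i t} := by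
  rw [ofPred_forall]
  exact isOpen_iInter_of_finite h

lemma open_ex {T : Type*} [TopologicalSpace T] {ι : Sort*} {p : ι → T → Prop}
    (h : ∀ i, IsOpen {t | p i t}) : IsOpen {t | ∃ i, p i t} := by
  rw [ofPred_exists]
  exact isOpen_iUnion h

lemma exists_levels (P : ℝ → ℝ → Prop) (hP : ∀ s > 0, ∃ s' > 0, s' ≤ s ∧ P s' s) (N : ℕ)
    {r : ℝ} (hr : 0 < r) : ∃ s : ℕ → ℝ, s N = r ∧ (∀ i, 0 < s i) ∧ Monotone s ∧
      ∀ i < N, P (s i) (s (i + 1)) := by
  choose! F h1 h2 h3 using hP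
  have hpos : ∀ n, 0 < F^[n] r := by
    intro n
    induction n with
    | zero => exact hr
    | succ n ih => rw [Function.iterate_succ_apply']; exact h1 _ ih
  have hs : ∀ i < N, F^[N - i] r = F (F^[N - (i + 1)] r) := fun i hi => by
    rw [show N - i = N - (i + 1) + 1 by omega, Function.iterate_succ_apply']
  refine ⟨fun i => F^[N - i] r, by simp, fun i => hpos _, monotone_nat_of_le_succ fun i => ?_,
    fun i hi => ?_⟩
  · rcases lt_or_ge i N with hi | hi
    · rw [hs i hi]
      exact h2 _ (hpos _)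
    · rw [show N - i = N - (i + 1) by omega]
  · show P (F^[N - i] r) _
    rw [hs i hi]
    exact h3 _ (hpos _)

variable {X : Type*} [MetricSpace X]

lemma finite_family [CompactSpace X] (hom : ∀ x y : X, ∃ h : X ≃ₜ X, h x = y) (s : ℝ)
    (hs : 0 < s) : ∃ η > 0, η ≤ s ∧ ∀ θ > 0, ∃ Φ : Set (X ≃ₜ X), Φ.Finite ∧
      ∀ u v, dist u v < η → ∃ h ∈ Φ, (∀ z, dist (h z) z < s) ∧ dist (h u) v < θ := by
  obtain ⟨η, hη, hE⟩ := effros hom hs
  refine ⟨min (η / 2) s, by positivity, min_le_right _ _, fun θ hθ => ?_⟩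
  have hD : IsCompact {p : X × X | dist p.1 p.2 ≤ η / 2} :=
    (isClosed_le (by fun_prop) continuous_const).isCompact
  obtain ⟨T, hT⟩ := hD.elim_finite_subcover
    (fun h : X ≃ₜ X => {p : X × X | (∀ z, dist (h z) z < s) ∧ dist (h p.1) p.2 < θ})
    (fun h => isOpen_const.and (isOpen_lt (by fun_prop) continuous_const))
    fun p hp => mem_iUnion.2 (hE p.1 p.2 (lt_of_le_of_lt hp (half_lt_self hη)) θ hθ)
  refine ⟨T, T.finite_toSet, fun u v huv => ?_⟩
  obtain ⟨h, hh, hp⟩ := mem_iUnion₂.1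
    (hT (show (u, v) ∈ _ from (huv.trans_le (min_le_left _ _)).le))
  exact ⟨h, hh, hp⟩

section Labels

variable {ι : Type*} (H : ι → X ≃ₜ X) (s θ : ℕ → ℝ) (lam : ι → Prop)

/-- the map number `h` moves no point by `s i` -/
def Lv (i : ℕ) (h : ι) : Prop := ∀ z, dist (H h z) z < s i

/-- the image of the neighbour `h` of `x` is chained to the neighbour `k` of the image of `x` -/
def Wt (i : ℕ) (f : X → X) (x : X) (h k : ι) : Prop :=
  Lv H s (i + 1) k ∧ Ch (ball (f x) (s (i + 1))) (θ (i + 1)) (H k (f x)) (f (H h x))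

/-- every label can be kept -/
def Good (i : ℕ) (f : X → X) (x : X) : Prop :=
  ∀ h, Lv H s i h → ∃ k, (lam k ↔ lam h) ∧ Wt H s θ i f x h k

/-- some label can be changed -/
def Bad (i : ℕ) (f : X → X) (x : X) : Prop :=
  ∃ h k, (Lv H s i h ∧ ¬ (lam k ↔ lam h)) ∧ Wt H s θ i f x h k

/-- two neighbours with different labels are chained -/
def Ex (i : ℕ) (x : X) : Prop :=
  ∃ h k, Lv H s i h ∧ Lv H s i k ∧ ¬ (lam k ↔ lam h) ∧ Ch (ball x (s i)) (θ i) (H k x) (H h x)

/-- the labels are the true ones at `x`, seen from the centre `w` -/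
def Pc (R ε : ℝ) (w x : X) : Prop :=
  dist x w < R / 4 ∧ ∀ h, (lam h ∧ x ∈ ball w (R / 2) ∧ H h x ∈ ball w (R / 2) ∧
    ¬ Ch (ball w (R / 2)) ε x (H h x)) ∨ (¬ lam h ∧ Ch (ball w (R / 2)) ε x (H h x))

variable {H s θ lam}

lemma Pc.iff {R ε : ℝ} {w x : X} (hP : Pc H lam R ε w x) (h : ι) :
    lam h ↔ ¬ Ch (ball w (R / 2)) ε x (H h x) := by
  have := hP.2 h
  tauto

lemma ex_of_good_bad {i : ℕ} {f : X → X} {x : X} (hG : Good H s θ lam i f x)
    (hB : Bad H s θ lam i f x) : Ex H s θ lam (i + 1) (f x) := by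
  obtain ⟨h, k, ⟨h1, h2⟩, h3⟩ := hB
  obtain ⟨k', h4, h5⟩ := hG h h1
  exact ⟨k', k, h5.1, h3.1, by tauto, h3.2.trans h5.2.symm⟩

variable {T : Type*} [TopologicalSpace T]

lemma open_wt (hθ : ∀ i, 0 < θ i) {f : T → X → X} (hf : Continuous fun p : T × X => f p.1 p.2)
    {x : T → X} (hx : Continuous x) (i : ℕ) (h k : ι) :
    IsOpen {t | Wt H s θ i (f t) (x t) h k} := by
  have h1 : Continuous fun t => f t (x t) := hf.comp (continuous_id.prodMk hx)
  have h2 : Continuous fun t => f t (H h (x t)) :=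
    hf.comp (continuous_id.prodMk ((H h).continuous.comp hx))
  exact isOpen_const.and (isOpen_ch h1 ((H k).continuous.comp h1) h2 _ (hθ _))

lemma open_pc [Finite ι] {R ε : ℝ} (hε : 0 < ε) (w : X) : IsOpen {x | Pc H lam R ε w x} :=
  (isOpen_lt (by fun_prop) continuous_const).and (open_all fun h => IsOpen.union
    (isOpen_const.and (isOpen_not_ch continuous_id (H h).continuous isOpen_ball hε))
    (isOpen_const.and (isOpen_ch continuous_const continuous_id (H h).continuous _ hε)))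

end Labels

variable {C : Type*}

/-- the point `p` moved by the stages `t 0`, `t 1`, and so on -/
def iter (K : C → X → X) (p : X) (t : ℕ → C) : ℕ → X
  | 0 => p
  | i + 1 => K (t i) (iter K p t i)

theorem chains [CompactSpace X] [MetricSpace C] [CompactSpace C] [PreconnectedSpace C]
    (hom : ∀ x y : X, ∃ h : X ≃ₜ X, h x = y) (p : X) (K : C → X → X)
    (hK : Continuous fun q : C × X => K q.1 q.2) (a b : C) (ha : ∀ x, K a x = x)
    (hb : ∀ s > 0, ∃ η > 0, ∀ y y', dist y y' < η →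
      ∃ S, IsPreconnected S ∧ K b y ∈ S ∧ K b y' ∈ S ∧ S ⊆ ball (K b y) s) :
    ∀ R > 0, ∃ η > 0, ∀ θ > 0, ∃ v : X, ∀ y, dist v y < η → Ch (ball v R) θ v y := by
  intro R hR
  by_contra hcon
  push Not at hcon
  have unif : ∀ ε > 0, ∃ δ > 0, ∀ c y y', dist y y' < δ → dist (K c y) (K c y') < ε := by
    intro ε hε
    obtain ⟨δ, hδ, h⟩ := Metric.uniformContinuous_iff.1
      (CompactSpace.uniformContinuous_of_continuous hK) ε hε
    exact ⟨δ, hδ, fun c y y' hy => h (a := (c, y)) (b := (c, y')) (by simpa using hy)⟩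
  have hR4 : 0 < R / 4 := by positivity
  obtain ⟨W, -, hWf, hW⟩ := finite_cover_balls_of_compact (isCompact_univ (X := X)) hR4
  set N := hWf.toFinset.card with hN
  choose! η hη0 hηs hη using finite_family hom
  obtain ⟨s, hsN, hs0, hsm, hs⟩ := exists_levels (fun s' s =>
    (∀ c y y', dist y y' < s' → dist (K c y) (K c y') < η s) ∧ ∀ y y', dist y y' < s' →
      ∃ S, IsPreconnected S ∧ K b y ∈ S ∧ K b y' ∈ S ∧ S ⊆ ball (K b y) s)
    (fun s hs => by
      obtain ⟨δ, hδ, h1⟩ := unif _ (hη0 s hs)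
      obtain ⟨δ', hδ', h2⟩ := hb s hs
      exact ⟨min s (min δ δ'), by positivity, min_le_left _ _,
        fun c y y' h => h1 c y y' (lt_min_iff.1 (lt_min_iff.1 h).2).1,
        fun y y' h => h2 y y' (lt_min_iff.1 (lt_min_iff.1 h).2).2⟩) N hR4
  obtain ⟨ε, hε, hbad⟩ := hcon _ (hη0 _ (hs0 0))
  obtain ⟨θ, hθN, hθ0, hθm, hθ⟩ := exists_levels (fun s' s =>
    ∀ c y y', dist y y' < s' → dist (K c y) (K c y') < s)
    (fun s hs => by
      obtain ⟨δ, hδ, h1⟩ := unif _ hs
      exact ⟨min s δ, by positivity, min_le_left _ _,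
        fun c y y' h => h1 c y y' (lt_min_iff.1 h).2⟩) N hε
  choose Φ hΦf hΦ using fun i => hη _ (hs0 i) _ (hθ0 0)
  set ι := {h : X ≃ₜ X // (h = Homeomorph.refl X ∨ ∃ i ≤ N, h ∈ Φ i) ∧ ∀ z, dist (h z) z < R / 4}
  have : Finite ι := by
    refine Set.Finite.to_subtype (((finite_singleton (Homeomorph.refl X)).union
      ((finite_le_nat N).biUnion fun i _ => hΦf i)).subset fun h hh => ?_)
    simpa using hh.1
  set H : ι → X ≃ₜ X := Subtype.val with hH
  set e : ι := ⟨Homeomorph.refl X, Or.inl rfl, fun z => by simpa using hR4⟩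
  have he : ∀ x, H e x = x := fun x => rfl
  have near : ∀ i ≤ N, ∀ u v, dist u v < η (s i) → ∃ k, Lv H s i k ∧ dist (H k u) v < θ 0 := by
    intro i hi u v huv
    obtain ⟨h, h1, h2, h3⟩ := hΦ i u v huv
    exact ⟨⟨h, Or.inr ⟨i, hi, h1⟩, fun z => (h2 z).trans_le (hsN ▸ hsm hi)⟩, h2, h3⟩
  have hball : ∀ i < N, ∀ c x, ∀ u ∈ ball x (s i), K c u ∈ ball (K c x) (s (i + 1)) :=
    fun i hi c x u hu => ((hs i hi).1 c u x hu).trans_le (hηs _ (hs0 _))
  have tot : ∀ i < N, ∀ c x h, Lv H s i h → ∃ k, Wt H s θ i (K c) x h k := by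
    intro i hi c x h hh
    obtain ⟨k, h1, h2⟩ := near (i + 1) hi (K c x) (K c (H h x))
      ((hs i hi).1 c _ _ (by rw [dist_comm]; exact hh x))
    exact ⟨k, h1, .step (mem_ball.2 (h1 _)) (hball i hi c x _ (hh x))
      (h2.trans_le (hθm (Nat.zero_le _)))⟩
  have bad_of_not_good : ∀ lam, ∀ i < N, ∀ c x, ¬ Good H s θ lam i (K c) x →
      Bad H s θ lam i (K c) x := by
    intro lam i hi c x hG
    simp only [Good, not_forall, not_exists, not_and] at hG
    obtain ⟨h, hh, hG⟩ := hG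
    obtain ⟨k, hk⟩ := tot i hi c x h hh
    exact ⟨h, k, ⟨hh, fun h' => hG k h' hk⟩, hk⟩
  have bad_of_ex : ∀ lam, ∀ i < N, ∀ c x, Ex H s θ lam i x → Bad H s θ lam i (K c) x := by
    rintro lam i hi c x ⟨h, h', h1, h2, h3, h4⟩
    obtain ⟨k, hk⟩ := tot i hi c x h' h2
    by_cases hl : lam k ↔ lam h'
    · exact ⟨h, k, ⟨h1, by tauto⟩, hk.1, hk.2.trans (h4.map (K c) (hball i hi c x) (hθ i hi c))⟩
    · exact ⟨h', k, ⟨h2, hl⟩, hk⟩
  have good_a : ∀ lam i x, Good H s θ lam i (K a) x := by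
    intro lam i x h hh
    have h1 : Lv H s (i + 1) h := fun z => (hh z).trans_le (hsm (Nat.le_succ i))
    refine ⟨h, Iff.rfl, h1, ?_⟩
    rw [ha, ha]
    exact .refl (mem_ball.2 (h1 x))
  have bad_b : ∀ lam w z, Pc H lam R ε w z → ∀ i < N, ∀ x, Bad H s θ lam i (K b) x := by
    intro lam w z hP i hi x
    obtain ⟨y, hy, hny⟩ := hbad z
    obtain ⟨h, h1, h2⟩ := near 0 (Nat.zero_le _) z y hy
    have h3 : Lv H s i h := fun z => (h1 z).trans_le (hsm (Nat.zero_le i))
    have hzw := hP.1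
    have h4 : lam h := by
      refine (hP.iff h).2 fun hc => hny ?_
      have h5 : Ch (ball z R) ε z (H h z) :=
        hc.mono (ball_subset_ball' (by rw [dist_comm]; linarith)) le_rfl
      refine h5.trans (.step h5.right (mem_ball'.2 ?_) (h2.trans_le (hθN ▸ hθm (Nat.zero_le _))))
      linarith [hηs _ (hs0 0), hsm (Nat.zero_le N)]
    have h6 : ¬ lam e := fun h => (hP.iff e).1 h (.refl (mem_ball.2 (by linarith)))
    obtain ⟨S, hS, m1, m2, m3⟩ := (hs i hi).2 x (H h x) (by rw [dist_comm]; exact h3 x)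
    exact ⟨h, e, ⟨h3, by tauto⟩, fun z => by simpa [he] using hs0 _,
      .of_preconnected hS m3 (hθ0 _) m1 m2⟩
  have not_ex : ∀ lam w z, Pc H lam R ε w z → ¬ Ex H s θ lam N z := by
    rintro lam w z hP ⟨h, k, -, -, h3, h4⟩
    have h5 : Ch (ball w (R / 2)) ε (H k z) (H h z) :=
      h4.mono (ball_subset_ball' (by linarith [hP.1])) hθN.le
    exact h3 (by
      rw [hP.iff h, hP.iff k]
      exact not_congr ⟨fun h => h.trans h5, fun h => h.trans h5.symm⟩)
  have prop : ∀ lam w (t : ℕ → C) (k : ℕ), Pc H lam R ε w (iter K p t N) →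
      (∀ i : Fin N, k ≤ i → Good H s θ lam i (K (t i)) (iter K p t i)) →
      ∀ d i, i + d = N → k ≤ i → ¬ Ex H s θ lam i (iter K p t i) := by
    intro lam w t k hP hG d
    induction d with
    | zero => rintro i rfl -; exact not_ex lam w _ hP
    | succ d ih =>
      intro i hi hk hE
      have hi' : i < N := by omega
      exact ih (i + 1) (by omega) (by omega)
        (ex_of_good_bad (hG ⟨i, hi'⟩ hk) (bad_of_ex lam i hi' _ _ hE))
  have hit : ∀ i, Continuous fun t : ℕ → C => iter K p t i := by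
    intro i
    induction i with
    | zero => exact continuous_const
    | succ i ih => exact hK.comp ((continuous_apply i).prodMk ih)
  have hKi : ∀ i, Continuous fun q : (ℕ → C) × X => K (q.1 i) q.2 := fun i =>
    hK.comp (f := fun q : (ℕ → C) × X => (q.1 i, q.2)) (by fun_prop)
  have hwt : ∀ i h k, IsOpen {t : ℕ → C | Wt H s θ i (K (t i)) (iter K p t i) h k} :=
    fun i h k => open_wt (f := fun t : ℕ → C => K (t i)) hθ0 (hKi i) (hit i) i h k
  obtain ⟨t, ht⟩ := cube_cover a b N (fun k => {t | ∃ w, w ∈ W ∧ ∃ lam,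
      Pc H lam R ε w (iter K p t N) ∧
      (∀ i : Fin N, k ≤ i → Good H s θ lam i (K (t i)) (iter K p t i)) ∧
      (0 < k → Bad H s θ lam (k - 1) (K (t (k - 1))) (iter K p t (k - 1)))})
    (fun k => open_ex fun w => isOpen_const.and (open_ex fun lam =>
      ((open_pc hε w).preimage (hit N)).and ((open_all fun i : Fin N => open_all fun _ =>
        open_all fun h => open_all fun _ => open_ex fun k => isOpen_const.and
          (hwt i h k)).and (open_all fun _ => open_ex fun h =>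
            open_ex fun k' => isOpen_const.and (hwt _ h k')))))
    (fun t => by
      classical
      obtain ⟨w, hw, hx⟩ := mem_iUnion₂.1 (hW (mem_univ (iter K p t N)))
      set lam : ι → Prop := fun h => ¬ Ch (ball w (R / 2)) ε (iter K p t N) (H h (iter K p t N))
      have hx' := mem_ball.1 hx
      have hP : Pc H lam R ε w (iter K p t N) := by
        refine ⟨hx, fun h => ?_⟩
        by_cases hl : lam h
        · refine Or.inl ⟨hl, mem_ball.2 (by linarith), mem_ball.2 ?_, hl⟩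
          linarith [dist_triangle (H h (iter K p t N)) (iter K p t N) w, h.2.2 (iter K p t N)]
        · exact Or.inr ⟨hl, not_not.1 hl⟩
      have hex : ∃ k : ℕ, ∀ i : Fin N, k ≤ i → Good H s θ lam i (K (t i)) (iter K p t i) :=
        ⟨N, fun i hi => absurd i.2 (not_lt.2 hi)⟩
      have hle : Nat.find hex ≤ N := Nat.find_min' hex fun i hi => absurd i.2 (not_lt.2 hi)
      refine ⟨Nat.find hex, hle, w, hw, lam, hP, Nat.find_spec hex, fun hk => ?_⟩
      refine bad_of_not_good lam _ (by omega) _ _ fun hG => ?_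
      refine Nat.find_min hex (Nat.sub_one_lt hk.ne') fun i hi => ?_
      rcases hi.eq_or_lt with h | h
      · rw [← h]
        exact hG
      · exact Nat.find_spec hex i (by omega))
    (by
      rintro k hk t ⟨w, -, lam, hP, hG, hB⟩ hta
      have h1 : Bad H s θ lam k (K (t k)) (iter K p t k) := hB k.succ_pos
      exact prop lam w t (k + 1) hP hG (N - (k + 1)) (k + 1) (by omega) le_rfl
        (ex_of_good_bad (hta ▸ good_a lam k _) h1))
    (by
      rintro k hk t ⟨w, -, lam, hP, hG, -⟩ htb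
      exact prop lam w t k hP hG (N - (k + 1)) (k + 1) (by omega) k.le_succ
        (ex_of_good_bad (hG ⟨k, hk⟩ le_rfl) (htb ▸ bad_b lam w _ hP k hk _)))
  have : Nonempty X := ⟨p⟩
  choose! w hw lam hP hG hB using ht
  have key : ∀ k k', k < k' → k' ≤ N → w k ≠ w k' := by
    intro k k' hk hk' hww
    have hkN : k ≤ N := by omega
    have hl : lam k' = lam k := funext fun h => propext (by
      rw [(hP k' hk').iff h, (hP k hkN).iff h, hww])
    obtain ⟨j, rfl⟩ : ∃ j, k' = j + 1 := ⟨k' - 1, by omega⟩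
    have h1 : Bad H s θ (lam k) j (K (t j)) (iter K p t j) := hl ▸ hB _ hk' j.succ_pos
    exact prop (lam k) (w k) t k (hP k hkN) (hG k hkN) (N - (j + 1)) (j + 1) (by omega) hk.le
      (ex_of_good_bad (hG k hkN ⟨j, hk'⟩ (Nat.lt_succ_iff.1 hk)) h1)
  obtain ⟨k, hk, k', hk', hne, hww⟩ := Finset.exists_ne_map_eq_of_card_lt_of_maps_to
    (s := Finset.range (N + 1)) (t := hWf.toFinset) (by simp [hN]) (f := w)
    fun k hk => by simpa using hw k (by simpa [Nat.lt_succ_iff] using hk)
  rw [Finset.mem_range, Nat.lt_succ_iff] at hk hk'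
  rcases lt_or_gt_of_ne hne with h | h
  · exact key k k' h hk' hww
  · exact key k' k h hk hww.symm

end Pool.Agent.MP_df941e_gt
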