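import Pool.Agent.MP_df941e_gt.Cube
import Mathlib.Topology.Baire.Lemmas
import Mathlib.Topology.Baire.CompleteMetrizable
import Mathlib.Topology.ContinuousMap.SecondCountableSpace
import Mathlib.Topology.ContinuousMap.Compact
import Mathlib.Topology.Separation.Connected
import Mathlib.Topology.Separation.Profinite
import Mathlib.Topology.Connected.LocallyConnected

/-!
The Baire half of the theorem of Effros, and local connectedness from chains of small steps.
-/

set_option autoImplicit false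

open Metric Set Filter Topology

namespace Pool.Agent.MP_df941e_gt

variable {X : Type*} [MetricSpace X]

/-- the points to which a homeomorphism that moves no point by `δ` can send `x` -/
def Orb (δ : ℝ) (x : X) : Set X := {y | ∃ h : X ≃ₜ X, (∀ z, dist (h z) z < δ) ∧ h x = y}

lemma small_symm {δ : ℝ} {h : X ≃ₜ X} (hh : ∀ z, dist (h z) z < δ) (z : X) :
    dist (h.symm z) z < δ := by
  have := hh (h.symm z)
  rwa [h.apply_symm_apply, dist_comm] at this

lemma orb_image {δ ε : ℝ} {h : X ≃ₜ X} (hh : ∀ z, dist (h z) z < δ) {x y : X}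
    (hy : y ∈ closure (Orb ε x)) : h y ∈ closure (Orb (δ + ε) x) := by
  refine map_mem_closure h.continuous hy ?_
  rintro _ ⟨u, hu, rfl⟩
  refine ⟨u.trans h, fun z => ?_, rfl⟩
  exact (dist_triangle _ (u z) _).trans_lt (add_lt_add (hh _) (hu _))

variable [CompactSpace X]

lemma orb_baire (hom : ∀ x y : X, ∃ h : X ≃ₜ X, h x = y) {δ : ℝ} (hδ : 0 < δ) (x : X) :
    (interior (closure (Orb δ x))).Nonempty := by
  have : Nonempty X := ⟨x⟩
  obtain ⟨T, hT, hc, hd⟩ := (TopologicalSpace.IsSeparable.of_separableSpace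
    (range fun h : X ≃ₜ X => (h : C(X, X)))).exists_countable_dense_subset
  have := hc.to_subtype
  choose k hk using fun t : T => hT t.2
  obtain ⟨t, ht⟩ := nonempty_interior_of_iUnion_of_closed
    (f := fun t : T => k t ⁻¹' closure (Orb δ x))
    (fun t => isClosed_closure.preimage (k t).continuous) (by
      refine eq_univ_of_forall fun y => mem_iUnion.2 ?_
      obtain ⟨h, rfl⟩ := hom x y
      obtain ⟨t, ht, hlt⟩ := Metric.mem_closure_iff.1 (hd ⟨h.symm, rfl⟩) δ hδ
      refine ⟨⟨t, ht⟩, subset_closure ⟨h.trans (k ⟨t, ht⟩), fun z => ?_, rfl⟩⟩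
      have h1 := (ContinuousMap.dist_apply_le_dist (h z)).trans_lt hlt
      have h2 : t (h z) = k ⟨t, ht⟩ (h z) := (DFunLike.congr_fun (hk ⟨t, ht⟩) (h z)).symm
      rw [h2, dist_comm] at h1
      simpa using h1)
  rw [← (k t).preimage_interior] at ht
  obtain ⟨z, hz⟩ := ht
  exact ⟨_, hz⟩

theorem effros (hom : ∀ x y : X, ∃ h : X ≃ₜ X, h x = y) {δ : ℝ} (hδ : 0 < δ) :
    ∃ η > 0, ∀ x y : X, dist x y < η → ∀ θ > 0,
      ∃ h : X ≃ₜ X, (∀ z, dist (h z) z < δ) ∧ dist (h x) y < θ := by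
  obtain ⟨ε, hε, rfl⟩ : ∃ ε > 0, δ = (ε + ε) + ((ε + ε) + (ε + ε)) :=
    ⟨δ / 6, by positivity, by ring⟩
  have hA : ∀ x : X, x ∈ interior (closure (Orb (ε + ε) x)) := by
    intro x
    obtain ⟨w, hw⟩ := orb_baire hom hε x
    obtain ⟨_, hW, u, hu, rfl⟩ :=
      _root_.mem_closure_iff.1 (interior_subset hw) _ isOpen_interior hw
    refine mem_interior.2 ⟨u ⁻¹' interior (closure (Orb ε x)), fun z hz => ?_,
      isOpen_interior.preimage u.continuous, hW⟩
    simpa using orb_image (small_symm hu) (interior_subset hz)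
  obtain ⟨η, hη, hL⟩ := lebesgue_number_lemma_of_metric isCompact_univ
    (c := fun x : X => interior (closure (Orb (ε + ε) x))) (fun _ => isOpen_interior)
    fun x _ => mem_iUnion.2 ⟨x, hA x⟩
  refine ⟨η, hη, fun x y hxy θ hθ => ?_⟩
  obtain ⟨p, hp⟩ := hL x (mem_univ x)
  obtain ⟨_, hW, u, hu, rfl⟩ := _root_.mem_closure_iff.1
    (interior_subset (hp (mem_ball_self hη))) _ isOpen_interior (hA x)
  have h1 : p ∈ closure (Orb ((ε + ε) + (ε + ε)) x) := by
    simpa using orb_image (small_symm hu) (interior_subset hW)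
  have h2 : y ∈ closure (Orb ((ε + ε) + ((ε + ε) + (ε + ε))) x) := by
    refine closure_minimal ?_ isClosed_closure (interior_subset (hp (mem_ball'.2 hxy)))
    rintro _ ⟨v, hv, rfl⟩
    exact orb_image hv h1
  obtain ⟨_, ⟨h, hh, rfl⟩, hlt⟩ := Metric.mem_closure_iff.1 h2 θ hθ
  exact ⟨h, hh, by rwa [dist_comm]⟩

omit [CompactSpace X] in
lemma mem_component {K : Set X} (hK : IsCompact K) {v y : X} (h : ∀ θ > 0, Ch K θ v y) :
    y ∈ connectedComponentIn K v := by
  have : CompactSpace K := isCompact_iff_compactSpace.1 hK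
  have hv := (h 1 one_pos).1
  rw [connectedComponentIn_eq_image hv, connectedComponent_eq_iInter_isClopen]
  refine ⟨⟨y, (h 1 one_pos).right⟩, mem_iInter.2 fun s => ?_, rfl⟩
  obtain ⟨θ, hθ, hs⟩ := s.2.1.isClosed.isCompact.exists_thickening_subset_open s.2.1.isOpen
    Subset.rfl
  have key : ∀ b, Relation.ReflTransGen (fun u v => v ∈ K ∧ dist u v < θ) v b →
      ∃ hb : b ∈ K, (⟨b, hb⟩ : K) ∈ s.1 := by
    intro b hb
    induction hb with
    | refl => exact ⟨hv, s.2.2⟩
    | tail _ h ih =>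
      obtain ⟨hu, hu'⟩ := ih
      exact ⟨h.1, hs (mem_thickening_iff.2 ⟨_, hu', by rw [dist_comm]; exact h.2⟩)⟩
  exact (key y (h θ hθ).2).2

theorem lc_of_chains (hom : ∀ x y : X, ∃ h : X ≃ₜ X, h x = y)
    (H : ∀ R > 0, ∃ η > 0, ∀ θ > 0, ∃ v : X, ∀ y, dist v y < η → Ch (ball v R) θ v y) :
    LocallyConnectedSpace X := by
  have small : ∀ {φ : ℕ → ℕ}, StrictMono φ → ∀ ε > 0,
      ∀ᶠ n in atTop, 1 / ((φ n : ℝ) + 1) < ε := fun hφ ε hε =>
    (tendsto_one_div_add_atTop_nhds_zero_nat.comp hφ.tendsto_atTop).eventually_lt_const hε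
  have step1 : ∀ R > 0, ∃ (v : X), ∃ M ∈ 𝓝 v, IsPreconnected M ∧ M ⊆ closedBall v (2 * R) := by
    intro R hR
    obtain ⟨η, hη, hθ⟩ := H R hR
    choose w hw using fun n : ℕ => hθ (1 / ((n : ℝ) + 1)) Nat.one_div_pos_of_nat
    obtain ⟨v, φ, hφ, hv⟩ := CompactSpace.tendsto_subseq w
    refine ⟨v, connectedComponentIn (closedBall v (2 * R)) v, ?_,
      isPreconnected_connectedComponentIn, connectedComponentIn_subset _ _⟩
    filter_upwards [ball_mem_nhds v (half_pos hη)] with y hy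
    refine mem_component (isCompact_closedBall _ _) fun θ hθ => ?_
    obtain ⟨n, h1, h2⟩ := ((small hφ θ hθ).and
      (Metric.tendsto_nhds.1 hv _ (lt_min hθ (lt_min hR (half_pos hη))))).exists
    simp only [Function.comp, lt_min_iff] at h2
    have h3 : dist (w (φ n)) y < η := by
      linarith [dist_triangle (w (φ n)) v y, mem_ball'.1 hy, h2.2.2]
    have h4 : Ch (closedBall v (2 * R)) θ (w (φ n)) y :=
      (hw _ y h3).mono ((ball_subset_ball' (by linarith [h2.2.1])).trans ball_subset_closedBall)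
        h1.le
    exact (Ch.step h4.1 (mem_closedBall_self (by linarith)) h2.1).symm.trans h4
  choose w M hM hMc hMs using fun n : ℕ => step1 (1 / ((n : ℝ) + 1)) Nat.one_div_pos_of_nat
  obtain ⟨x, φ, hφ, hx⟩ := CompactSpace.tendsto_subseq w
  have step2 : ∀ U ∈ 𝓝 x, ∃ V ∈ 𝓝 x, IsPreconnected V ∧ V ⊆ U := by
    intro U hU
    obtain ⟨ε, hε, hU⟩ := Metric.mem_nhds_iff.1 hU
    have hε4 : 0 < ε / 4 := by positivity
    obtain ⟨η, hη, hE⟩ := effros hom hε4
    obtain ⟨n, h1, h2⟩ := ((small hφ _ hε4).and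
      (Metric.tendsto_nhds.1 hx _ (lt_min hη hε4))).exists
    simp only [Function.comp, lt_min_iff] at h2
    obtain ⟨θ, hθ, hb⟩ := Metric.mem_nhds_iff.1 (hM (φ n))
    obtain ⟨h, hh, hd⟩ := hE x (w (φ n)) (by rw [dist_comm]; exact h2.1) θ hθ
    refine ⟨h ⁻¹' M (φ n), h.continuous.continuousAt.preimage_mem_nhds
      (mem_of_superset (isOpen_ball.mem_nhds hd) hb), h.isPreconnected_preimage.2 (hMc _),
      fun z hz => hU ?_⟩
    have h3 := mem_closedBall.1 (hMs _ hz)
    have h4 := hh z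
    rw [dist_comm] at h4
    exact mem_ball.2 (by linarith [dist_triangle4 z (h z) (w (φ n)) x, h2.2])
  refine locallyConnectedSpace_iff_connected_subsets.2 fun p U hU => ?_
  obtain ⟨g, hg⟩ := hom p x
  obtain ⟨V, hV, hVc, hVU⟩ := step2 (g.symm ⁻¹' U)
    (g.symm.continuous.continuousAt.preimage_mem_nhds (by simpa [← hg] using hU))
  exact ⟨g ⁻¹' V, g.continuous.continuousAt.preimage_mem_nhds (by rwa [hg]),
    g.isPreconnected_preimage.2 hVc, fun z hz => by simpa using hVU hz⟩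

end Pool.Agent.MP_df941e_gt
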