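import Pool.Agent.MP_df941e_gt.Maps
import Mathlib.Topology.Homotopy.Basic

/-!
Two classes that satisfy the hypothesis of `lc_of_jm`: connected sets of monotone surjections
(in particular of homeomorphisms), and H-spaces with essential collapses.
-/

set_option autoImplicit false

open Metric Set Filter Topology unitInterval

namespace Pool.Agent.MP_df941e_gt

variable {X : Type*} [MetricSpace X] [CompactSpace X]

lemma pairs_conn {T : Set (C(X, X) × X)} (hT : IsConnected T)
    (h : ∀ q ∈ T, IsConnected (q.1 ⁻¹' {q.2})) :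
    IsPreconnected {p : C(X, X) × X | (p.1, p.1 p.2) ∈ T} := by
  set φ : {p : C(X, X) × X | (p.1, p.1 p.2) ∈ T} → T := fun p => ⟨(p.1.1, p.1.1 p.1.2), p.2⟩
  have cφ : Continuous φ := by fun_prop
  have clφ : IsClosedMap φ := by
    intro C hC
    have e : φ '' C = Prod.fst '' ({r : T × X | r.1.1.1 r.2 = r.1.1.2} ∩
        (fun r : T × X => (r.1.1.1, r.2)) ⁻¹' closure (Subtype.val '' C)) := by
      ext q
      constructor
      · rintro ⟨p, hp, rfl⟩
        exact ⟨(φ p, p.1.2), ⟨rfl, subset_closure ⟨p, hp, rfl⟩⟩, rfl⟩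
      · rintro ⟨⟨⟨⟨g, y⟩, hq⟩, z⟩, ⟨(a : g z = y), b⟩, rfl⟩
        subst a
        refine ⟨⟨(g, z), hq⟩, ?_, rfl⟩
        rw [← hC.closure_eq, closure_subtype]
        exact b
    rw [e]
    exact isClosedMap_fst_of_compactSpace _ ((isClosed_eq (by fun_prop) (by fun_prop)).inter
      (isClosed_closure.preimage (by fun_prop)))
  have fib : ∀ q : T, IsConnected (φ ⁻¹' {q}) := by
    rintro ⟨⟨g, y⟩, hq⟩
    have e : Subtype.val '' (φ ⁻¹' {⟨(g, y), hq⟩}) = (fun z => (g, z)) '' (g ⁻¹' {y}) := by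
      ext p
      constructor
      · rintro ⟨⟨⟨g', z⟩, hp⟩, (a : φ _ = _), rfl⟩
        obtain ⟨rfl, b⟩ := Prod.mk.inj (Subtype.mk.inj a)
        exact ⟨z, b, rfl⟩
      · rintro ⟨z, (rfl : g z = y), rfl⟩
        exact ⟨⟨(g, z), hq⟩, rfl, rfl⟩
    have := (h _ hq).image (fun z => (g, z)) (by fun_prop)
    rw [← e] at this
    exact ⟨this.1.of_image, IsInducing.subtypeVal.isPreconnected_image.1 this.2⟩
  have : ConnectedSpace T := Subtype.connectedSpace hT
  have q := (clφ.isQuotientMap cφ fun t => (fib t).1).isCoinducing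
  have := (q.isConnected_preimage_of_isClosed fib isClosed_univ isConnected_univ).2
  rw [preimage_univ] at this
  simpa using this.image Subtype.val continuous_subtype_val.continuousOn

/-- connected sets of monotone surjections -/
lemma jm_of_monotone {S : Set C(X, X)} (h1 : IsPreconnected S) (h2 : TotallyBounded S)
    (h3 : ContinuousMap.id X ∈ S) (h4 : ∀ g ∈ S, ∀ y, IsConnected (g ⁻¹' {y})) {f : C(X, X)}
    (hf : f ∈ S) {ε : ℝ} {c x : X} {A : Set X} (a1 : IsPreconnected A) (a2 : A ⊆ ball c ε)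
    (a3 : f x ∈ A) (a4 : c ∈ A) : Jm ε c f x := by
  refine ⟨_, pairs_conn (T := S ×ˢ {c} ∪ {f} ×ˢ A) ⟨⟨(f, c), Or.inl ⟨hf, rfl⟩⟩,
    (h1.prod isPreconnected_singleton).union (f, c) ⟨hf, rfl⟩ ⟨rfl, a4⟩
      (isPreconnected_singleton.prod a1)⟩ ?_, ((h2.closure.isCompact_of_isClosed isClosed_closure).prod
      (isCompact_univ (X := X))).totallyBounded.subset ?_,
    Or.inl ⟨h3, rfl⟩, Or.inr ⟨rfl, a3⟩, ?_⟩
  · rintro ⟨g, y⟩ (⟨hg, -⟩ | ⟨(rfl : g = f), -⟩)
    · exact h4 g hg y
    · exact h4 g hf y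
  · rintro ⟨g, y⟩ (⟨hg, -⟩ | ⟨(rfl : g = f), -⟩)
    · exact ⟨subset_closure hg, trivial⟩
    · exact ⟨subset_closure hf, trivial⟩
  · rintro ⟨g, y⟩ (⟨-, (hy : g y = c)⟩ | ⟨-, hy⟩)
    · exact a2 (hy ▸ a4)
    · exact a2 hy

/-- the hypothesis of the hand-in on continua of homeomorphisms is a special case -/
lemma jm_of_bijective {S : Set C(X, X)} (h1 : IsPreconnected S) (h2 : TotallyBounded S)
    (h3 : ContinuousMap.id X ∈ S) (h4 : ∀ g ∈ S, Function.Bijective g) {f : C(X, X)}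
    (hf : f ∈ S) {ε : ℝ} {c x : X} {A : Set X} (a1 : IsPreconnected A) (a2 : A ⊆ ball c ε)
    (a3 : f x ∈ A) (a4 : c ∈ A) : Jm ε c f x := by
  refine jm_of_monotone h1 h2 h3 (fun g hg y => ?_) hf a1 a2 a3 a4
  obtain ⟨w, rfl⟩ := (h4 g hg).2 y
  rw [← image_singleton, preimage_image_eq _ (h4 g hg).1]
  exact isConnected_singleton

/-- H-spaces in which small neighbourhoods of the unit carry essential maps -/
lemma jm_of_hspace [PathConnectedSpace X] (μ : C(X × X, X)) (e : X) (hl : ∀ x, μ (e, x) = x)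
    (hr : ∀ x, μ (x, e) = x)
    (hE : ∀ V ∈ 𝓝 e, ∃ (Y : Type) (_ : TopologicalSpace Y) (g : C(X, Y)) (y : Y),
      (∀ x ∉ V, g x = y) ∧ ¬ g.Homotopic (ContinuousMap.const X y))
    {ε : ℝ} (hε : 0 < ε) (x : X) : ∃ f, Jm ε e f x := by
  obtain ⟨z⟩ := PathConnectedSpace.joined e x
  set Φ : I × X → X := fun p => μ (p.2, z p.1) with hΦ
  have cΦ : Continuous Φ := by fun_prop
  have Φ0 : ∀ a, Φ (0, a) = a := fun a => by simp [hΦ, hr]
  set W := Φ ⁻¹' closedBall e (ε / 2) with hW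
  have hWc : IsCompact W := (isClosed_closedBall.preimage cΦ).isCompact
  have : CompactSpace W := isCompact_iff_compactSpace.1 hWc
  have hw0 : (0, e) ∈ W := by simp [hW, Φ0, (half_pos hε).le]
  by_cases hc : ∃ p ∈ connectedComponent (⟨_, hw0⟩ : W), p.1.1 = 1
  · obtain ⟨p, hp, hp1⟩ := hc
    set ψ : W → C(X, X) × X := fun q => (μ.curry q.1.2, z q.1.1) with hψ
    have cψ : Continuous ψ := by fun_prop
    refine ⟨μ.curry p.1.2, ψ '' connectedComponent ⟨_, hw0⟩,
      isPreconnected_connectedComponent.image _ cψ.continuousOn,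
      (isClosed_connectedComponent.isCompact.image cψ).totallyBounded,
      ⟨_, mem_connectedComponent, ?_⟩, ⟨p, hp, by simp [hψ, hp1]⟩, ?_⟩
    · refine Prod.ext (ContinuousMap.ext fun y => hl y) (by simp [hψ])
    · rintro _ ⟨q, -, rfl⟩
      exact closedBall_subset_ball (half_lt_self hε) q.2
  · exfalso
    push Not at hc
    have hF : IsCompact {p : W | p.1.1 = 1} :=
      (isClosed_eq (by fun_prop) continuous_const).isCompact
    obtain ⟨u, hu⟩ := hF.elim_finite_subfamily_closed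
      (fun s : {s : Set W // IsClopen s ∧ (⟨_, hw0⟩ : W) ∈ s} => s.1) (fun s => s.2.1.isClosed) (by
        rw [← connectedComponent_eq_iInter_isClopen]
        exact eq_empty_of_forall_notMem fun p hp => hc p hp.2 hp.1)
    set U : Set W := ⋂ s ∈ u, s.1 with hU
    have cU : IsClopen U := isClopen_biInter_finset fun s _ => s.2.1
    have mU : (⟨_, hw0⟩ : W) ∈ U := mem_iInter₂.2 fun s _ => s.2.2
    have c1 : IsClosed (Subtype.val '' U) :=
      (cU.isClosed.isCompact.image continuous_subtype_val).isClosed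
    have c2 : IsClosed (Subtype.val '' Uᶜ) :=
      (cU.compl.isClosed.isCompact.image continuous_subtype_val).isClosed
    have dj : ∀ p, p ∈ Subtype.val '' U → p ∉ Subtype.val '' Uᶜ := by
      rintro _ ⟨p, hp, rfl⟩ ⟨q, hq, h⟩
      exact hq (Subtype.ext h ▸ hp)
    have cv : ∀ p ∈ W, p ∉ Subtype.val '' Uᶜ → p ∈ Subtype.val '' U := fun p hp h =>
      ⟨⟨p, hp⟩, by_contra fun h' => h ⟨⟨p, hp⟩, h', rfl⟩, rfl⟩
    obtain ⟨Y, _, g, y, hg, hne⟩ := hE
      (closedBall e (ε / 2) ∩ (fun a => ((0 : I), a)) ⁻¹' (Subtype.val '' Uᶜ)ᶜ)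
      (inter_mem (closedBall_mem_nhds _ (half_pos hε))
        ((c2.isOpen_compl.preimage (by fun_prop)).mem_nhds (dj _ ⟨_, mU, rfl⟩)))
    classical
    have cG : Continuous fun p : I × X => if p ∈ Subtype.val '' U then g (Φ p) else y := by
      refine continuous_iff_continuousAt.2 fun p => ?_
      by_cases hp : p ∈ Subtype.val '' U
      · refine (g.continuous.comp cΦ).continuousAt.congr ?_
        filter_upwards [c2.isOpen_compl.mem_nhds (dj p hp)] with q hq
        split_ifs with h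
        · rfl
        · exact hg _ fun h' => h (cv q h'.1 hq)
      · refine (continuousAt_const (y := y)).congr ?_
        filter_upwards [c1.isOpen_compl.mem_nhds hp] with q hq
        rw [if_neg hq]
    refine hne ⟨⟨⟨_, cG⟩, fun a => ?_, fun a => ?_⟩⟩
    · show (if _ then _ else _) = _
      split_ifs with h
      · rw [Φ0]
      · refine (hg a fun h' => h (cv _ ?_ h'.2)).symm
        rw [hW, mem_preimage, Φ0]
        exact h'.1
    · refine if_neg ?_
      rintro ⟨p, hp, h⟩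
      exact (hu ▸ (⟨congrArg Prod.fst h, hp⟩ : p ∈ {p : W | p.1.1 = 1} ∩ U) : p ∈ (∅ : Set W))

end Pool.Agent.MP_df941e_gt
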