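import Pool.Agent.MP_df941e_gt.Conj

/-!
Connected sets of pairs (self-map, point) whose values stay near one point, and the transport of
near points along a path.
-/

set_option autoImplicit false

open Metric Set Filter Topology unitInterval

namespace Pool.Agent.MP_df941e_gt

variable {X : Type*} [MetricSpace X] [CompactSpace X]

/-- the pair `(f, z)` is joined to `(id, c)` by pairs whose values stay in the ball -/
def Jm (ε : ℝ) (c : X) (f : C(X, X)) (z : X) : Prop :=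
  ∃ Z : Set (C(X, X) × X), IsPreconnected Z ∧ TotallyBounded Z ∧ (ContinuousMap.id X, c) ∈ Z ∧
    (f, z) ∈ Z ∧ ∀ p ∈ Z, p.1 p.2 ∈ ball c ε

lemma Jm.chain {ε : ℝ} {c z : X} {f : C(X, X)} (hJ : Jm ε c f z) (hε : 0 < ε) :
    ∃ δ > 0, ∀ h : X ≃ₜ X, (∀ z, dist (h z) z < δ) → ∀ θ > 0,
      Ch (closedBall c (2 * ε)) θ (f (h z)) (h c) := by
  obtain ⟨Z, z1, z2, z3, z4, z5⟩ := hJ
  have hK : IsCompact (closure (Prod.fst '' Z) ×ˢ (univ : Set X)) :=
    ((z2.image uniformContinuous_fst).closure.isCompact_of_isClosed isClosed_closure).prod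
      isCompact_univ
  obtain ⟨δ, hδ, hu⟩ := Metric.uniformContinuousOn_iff.1 (hK.uniformContinuousOn_of_continuous
    (f := fun p : C(X, X) × X => p.1 p.2) (by fun_prop)) ε hε
  refine ⟨δ, hδ, fun h hh θ hθ => Ch.of_preconnected
    (z1.image (fun p => p.1 (h p.2)) (by fun_prop)) ?_ hθ ⟨_, z4, rfl⟩ ⟨_, z3, rfl⟩⟩
  rintro _ ⟨p, hp, rfl⟩
  have e1 := hu (p.1, h p.2) ⟨subset_closure ⟨p, hp, rfl⟩, trivial⟩ (p.1, p.2)
    ⟨subset_closure ⟨p, hp, rfl⟩, trivial⟩ (by rw [dist_prod_same_left]; exact hh p.2)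
  have e2 := mem_ball.1 (z5 p hp)
  exact mem_closedBall.2 (by linarith [dist_triangle (p.1 (h p.2)) (p.1 p.2) c])

lemma junction' (hom : ∀ x y : X, ∃ h : X ≃ₜ X, h x = y) {ε : ℝ} {c z : X} {ψ ψ' : C(X, X)}
    (hJ : Jm ε c ψ z) (hJ' : Jm ε c ψ' z) (hε : 0 < ε) :
    ∀ᶠ w in 𝓝 z, ψ' w ∈ connectedComponentIn (closedBall c (2 * ε)) (ψ w) := by
  have near : ∀ {φ : C(X, X)}, Jm ε c φ z → ∀ᶠ w in 𝓝 z, φ w ∈ closedBall c (2 * ε) := by
    rintro φ ⟨Z, -, -, -, z4, z5⟩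
    exact φ.continuous.continuousAt.eventually (mem_of_superset (isOpen_ball.mem_nhds (z5 _ z4))
      (ball_subset_closedBall.trans (closedBall_subset_closedBall (by linarith))))
  obtain ⟨δ, hδ, H⟩ := hJ.chain hε
  obtain ⟨δ', hδ', H'⟩ := hJ'.chain hε
  obtain ⟨η, hη, hE⟩ := effros hom (lt_min hδ hδ')
  filter_upwards [near hJ, near hJ', ball_mem_nhds z hη] with w h1 h2 h3
  refine mem_component (isCompact_closedBall _ _) fun θ hθ => ?_
  obtain ⟨θ', hθ', hb⟩ := Metric.eventually_nhds_iff.1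
    ((Metric.tendsto_nhds.1 (ψ.continuous.tendsto w) θ hθ).and
      (Metric.tendsto_nhds.1 (ψ'.continuous.tendsto w) θ hθ))
  obtain ⟨h, hh, hd⟩ := hE z w (mem_ball'.1 h3) θ' hθ'
  have c1 := H h (fun z => (hh z).trans_le (min_le_left _ _)) θ hθ
  have c2 := H' h (fun z => (hh z).trans_le (min_le_right _ _)) θ hθ
  exact ((Ch.step c1.1 h1 (hb hd).1).symm.trans c1).trans
    (c2.symm.trans (Ch.step c2.1 h2 (hb hd).2))

lemma transport' (hom : ∀ x y : X, ∃ h : X ≃ₜ X, h x = y) {ε : ℝ} (hε : 0 < ε) {c : X}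
    (H : ∀ z, ∃ ψ, Jm ε c ψ z) (γ₀ : C(I, X)) (h0 : γ₀ 0 = c) :
    ∃ ψ : C(X, X), Jm ε c ψ (γ₀ 1) ∧ ∀ᶠ γ in 𝓝[{γ : C(I, X) | γ 0 = c}] γ₀,
      ψ (γ 1) ∈ connectedComponentIn (closedBall c (2 * ε)) c := by
  choose ψ hψ using H
  set π : ℝ → I := projIcc 0 1 zero_le_one with hπ
  have cπ : Continuous π := continuous_projIcc
  set Φ : ℝ → Prop := fun t => ∀ᶠ γ in 𝓝[{γ : C(I, X) | γ 0 = c}] γ₀,
    ψ (γ₀ (π t)) (γ (π t)) ∈ connectedComponentIn (closedBall c (2 * ε)) c with hΦ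
  have loc : IsLocallyConstant Φ := by
    refine (IsLocallyConstant.iff_eventually_eq Φ).2 fun τ => ?_
    obtain ⟨Z, z1, z2, z3, z4, z5⟩ := hψ (γ₀ (π τ))
    set φ := ψ (γ₀ (π τ))
    obtain ⟨r, hr, hb⟩ := Metric.eventually_nhds_iff_ball.1
      ((show Continuous fun s => φ (γ₀ (π s)) by fun_prop).continuousAt.eventually
        (isOpen_ball.mem_nhds (z5 _ z4)))
    obtain ⟨δ, hδ, hu⟩ := Metric.uniformContinuous_iff.1
      (CompactSpace.uniformContinuous_of_continuous φ.continuous) ε hε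
    have pc : ∀ γ : C(I, X), IsPreconnected ((fun s => φ (γ (π s))) '' ball τ r) :=
      fun γ => (convex_ball τ r).isPreconnected.image _ (by fun_prop)
    filter_upwards [ball_mem_nhds τ hr] with s hs
    have j := junction' hom (hψ (γ₀ (π s))) (ψ' := φ)
      ⟨Z ∪ (fun s => (φ, γ₀ (π s))) '' ball τ r,
      z1.union _ z4 (mem_image_of_mem _ (mem_ball_self hr))
        ((convex_ball τ r).isPreconnected.image _ (by fun_prop)),
      z2.union (((isCompact_singleton (x := φ)).prod isCompact_univ).totallyBounded.subset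
        (by rintro _ ⟨t, -, rfl⟩; exact ⟨rfl, trivial⟩)),
      Or.inl z3, Or.inr ⟨s, hs, rfl⟩, by
        rintro p (hp | ⟨t, ht, rfl⟩)
        · exact z5 p hp
        · exact hb t ht⟩ hε
    refine propext (eventually_congr (Eventually.filter_mono nhdsWithin_le_nhds ?_))
    filter_upwards [(show Continuous fun γ : C(I, X) => γ (π s) by
      fun_prop).continuousAt.eventually j, ball_mem_nhds γ₀ hδ] with γ k1 k2
    refine (comp_iff k1).trans (comp_iff ((pc γ).subset_connectedComponentIn ⟨s, hs, rfl⟩ ?_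
      ⟨τ, mem_ball_self hr, rfl⟩))
    rintro _ ⟨t, ht, rfl⟩
    have e1 := hu ((ContinuousMap.dist_apply_le_dist (π t)).trans_lt (mem_ball.1 k2))
    have e2 := mem_ball.1 (hb t ht)
    exact mem_closedBall.2 (by linarith [dist_triangle (φ (γ (π t))) (φ (γ₀ (π t))) c])
  have p0 : π 0 = 0 := projIcc_left _
  have p1 : π 1 = 1 := projIcc_right _
  have z : Φ 0 := by
    obtain ⟨Z, z1, -, z3, z4, z5⟩ := hψ c
    filter_upwards [self_mem_nhdsWithin] with γ hγ
    rw [p0, h0, show γ 0 = c from hγ]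
    refine (z1.image (fun p => p.1 p.2) (by fun_prop)).subset_connectedComponentIn ⟨_, z3, rfl⟩
      ?_ ⟨_, z4, rfl⟩
    rintro _ ⟨p, hp, rfl⟩
    exact closedBall_subset_closedBall (by linarith) (ball_subset_closedBall (z5 p hp))
  rw [loc.apply_eq_of_preconnectedSpace 0 1, hΦ] at z
  simp only [p1] at z
  exact ⟨_, hψ _, z⟩

/-- a path such that the end points of the near paths are dense around its end point -/
lemma ample' [PathConnectedSpace X] (e : X) :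
    ∃ γ : C(I, X), γ 0 = e ∧ ∀ s > 0, ∃ η > 0, ∀ y, dist y (γ 1) < η → ∀ θ > 0,
      ∃ γ' : C(I, X), γ' 0 = e ∧ dist γ' γ < s ∧ dist (γ' 1) y < θ := by
  obtain ⟨D, hD, hd⟩ := TopologicalSpace.exists_countable_dense C(I, X)
  have := hD.to_subtype
  set E : D × ℕ → Set X := fun q => closure
    {y | ∃ γ : C(I, X), γ 0 = e ∧ dist γ q.1.1 < 1 / ((q.2 : ℝ) + 1) ∧ γ 1 = y} with hE
  have : Nonempty X := ⟨e⟩
  obtain ⟨y, hy⟩ := (dense_iInter_of_isOpen (f := fun q => (frontier (E q))ᶜ)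
    (fun q => isClosed_frontier.isOpen_compl)
    fun q => interior_eq_empty_iff_dense_compl.1 (interior_frontier isClosed_closure)).nonempty
  obtain ⟨γ⟩ := PathConnectedSpace.joined e y
  refine ⟨γ.toContinuousMap, γ.source, fun s hs => ?_⟩
  obtain ⟨n, hn⟩ := exists_nat_one_div_lt (half_pos hs)
  obtain ⟨t, ht, hlt⟩ := hd.exists_dist_lt γ.toContinuousMap (Nat.one_div_pos_of_nat (n := n))
  have h1 : y ∈ E (⟨t, ht⟩, n) := subset_closure ⟨_, γ.source, hlt, γ.target⟩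
  have h2 : y ∈ interior (E (⟨t, ht⟩, n)) := by
    by_contra h
    exact mem_iInter.1 hy (⟨t, ht⟩, n) ⟨subset_closure h1, h⟩
  obtain ⟨η, hη, hb⟩ := Metric.mem_nhds_iff.1 (mem_interior_iff_mem_nhds.1 h2)
  refine ⟨η, hη, fun w hw θ hθ => ?_⟩
  have h3 : γ.toContinuousMap 1 = y := γ.target
  obtain ⟨_, ⟨γ', k0, k1, rfl⟩, k2⟩ :=
    Metric.mem_closure_iff.1 (hb (mem_ball.2 (h3 ▸ hw))) θ hθ
  exact ⟨γ', k0, by linarith [dist_triangle_right γ' γ.toContinuousMap t], by rwa [dist_comm]⟩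

theorem lc_of_jm [PathConnectedSpace X] (hom : ∀ x y : X, ∃ h : X ≃ₜ X, h x = y) (c : X)
    (H : ∀ ε > 0, ∀ z : X, ∃ ψ, Jm ε c ψ z) : LocallyConnectedSpace X := by
  refine lc_of_chains hom fun R hR => ?_
  have hε : 0 < R / 3 := by positivity
  obtain ⟨γ₀, g0, hγ⟩ := ample' c
  obtain ⟨ψ, hJ, hev⟩ := transport' hom hε (H _ hε) γ₀ g0
  obtain ⟨s, hs, hball⟩ := Metric.mem_nhdsWithin_iff.1 hev
  obtain ⟨η₁, hη₁, hnear⟩ := hγ s hs
  obtain ⟨δ, hδ, hch⟩ := hJ.chain hε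
  obtain ⟨η, hη, hE⟩ := effros hom (lt_min hδ hη₁)
  refine ⟨min η R, lt_min hη hR, fun θ hθ => ⟨c, fun y hy => ?_⟩⟩
  obtain ⟨h, hh, hd⟩ := hE c y (hy.trans_le (min_le_left _ _)) θ hθ
  have c1 := hch h (fun z => (hh z).trans_le (min_le_left _ _)) θ hθ
  obtain ⟨θ', hθ', hb⟩ := Metric.eventually_nhds_iff.1
    (Metric.tendsto_nhds.1 (ψ.continuous.tendsto (h (γ₀ 1))) θ hθ)
  obtain ⟨γ, k0, k1, k2⟩ := hnear (h (γ₀ 1)) ((hh _).trans_le (min_le_right _ _)) θ' hθ'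
  have m := hball ⟨mem_ball.2 k1, k0⟩
  have c2 : Ch (closedBall c (2 * (R / 3))) θ c (ψ (γ 1)) :=
    Ch.of_preconnected isPreconnected_connectedComponentIn (connectedComponentIn_subset _ _) hθ
      (mem_connectedComponentIn (mem_closedBall_self (by linarith))) m
  have c3 := ((c2.trans (.step c2.right c1.1 (hb k2))).trans c1).mono
    (closedBall_subset_ball (show 2 * (R / 3) < R by linarith)) le_rfl
  exact c3.trans (.step c3.right (mem_ball'.2 (hy.trans_le (min_le_right _ _))) hd)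

end Pool.Agent.MP_df941e_gt
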