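import Pool.Agent.MP_df941e_gt.Core

/-!
Perturbations of a map from the cube: labels that are locally constant, and the covering argument.
-/

set_option autoImplicit false

open Metric Set Filter Topology unitInterval

namespace Pool.Agent.MP_df941e_gt

variable {X : Type*} [MetricSpace X] {U : Type*} [TopologicalSpace U]

/-- the jumps of `f` are smaller than `θ` -/
def Nc (θ : ℝ) (f : U → X) : Prop := ∀ u, ∀ᶠ v in 𝓝 u, dist (f u) (f v) < θ

lemma Nc.of_cont {θ : ℝ} (hθ : 0 < θ) {f : U → X} (hf : Continuous f) : Nc θ f := fun u =>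
  (isOpen_lt (by fun_prop) continuous_const).mem_nhds (by simpa using hθ)

lemma Nc.ite {θ c : ℝ} (hθ : 0 < θ) {f g : U → X} {τ : U → ℝ} (hf : Continuous f)
    (hg : Continuous g) (hτ : Continuous τ) (h : ∀ u, τ u = c → dist (f u) (g u) < θ) :
    Nc θ fun u => if τ u ≤ c then f u else g u := by
  intro u
  rcases lt_trichotomy (τ u) c with hu | hu | hu
  · filter_upwards [(isOpen_lt hτ continuous_const).mem_nhds hu, Nc.of_cont hθ hf u] with v h1 h2
    have h1' : τ v < c := h1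
    simpa [hu.le, h1'.le] using h2
  · have e : ∀ᶠ v in 𝓝 u, dist (f u) (g v) < θ :=
      (isOpen_lt (by fun_prop) continuous_const).mem_nhds (h u hu)
    filter_upwards [e, Nc.of_cont hθ hf u] with v h1 h2
    by_cases hv : τ v ≤ c
    · simpa [hu.le, hv] using h2
    · simpa [hu.le, hv] using h1
  · filter_upwards [(isOpen_lt continuous_const hτ).mem_nhds hu, Nc.of_cont hθ hg u] with v h1 h2
    have h1' : c < τ v := h1
    simpa [not_le.2 hu, not_le.2 h1'] using h2

lemma ch_const {R θ : ℝ} (hθ : 0 < θ) {z f : U → X} (hz : Continuous z) (hf : Nc θ f)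
    (hc : ∀ u, dist (f u) (z u) < R / 4) {w : X} {u : U} (hu : dist (z u) w < R / 4) :
    ∀ᶠ v in 𝓝 u, (Ch (ball w (R / 2)) θ (z v) (f v) ↔ Ch (ball w (R / 2)) θ (z u) (f u)) := by
  have e : ∀ᶠ v in 𝓝 u, dist (z v) w < R / 4 :=
    (isOpen_lt (by fun_prop) continuous_const).mem_nhds hu
  have m : ∀ v, dist (z v) w < R / 4 → z v ∈ ball w (R / 2) ∧ f v ∈ ball w (R / 2) := fun v h =>
    ⟨mem_ball.2 (by linarith [dist_nonneg (x := z v) (y := w)]),
      mem_ball.2 (by linarith [dist_triangle (f v) (z v) w, hc v])⟩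
  filter_upwards [e, hf u, Nc.of_cont hθ hz u] with v h1 h2 h3
  have a := Ch.step (m u hu).1 (m v h1).1 h3
  have b := Ch.step (m u hu).2 (m v h1).2 h2
  exact ⟨fun h => (a.trans h).trans b.symm, fun h => (a.symm.trans h).trans b⟩

theorem slots (W : Finset X) {R θ : ℝ} (hθ : 0 < θ) {ι : Type*} [Finite ι]
    {z : (ℕ → I) → X} (hz : Continuous z) (hW : ∀ u, ∃ w ∈ W, dist (z u) w < R / 4)
    (l r : ℕ → ι → (ℕ → I) → X) (hl : ∀ i h, Nc θ (l i h)) (hr : ∀ i h, Nc θ (r i h))
    (cl : ∀ i ≤ W.card, ∀ h u, dist (l i h u) (z u) < R / 4)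
    (cr : ∀ i < W.card, ∀ h u, dist (r i h u) (z u) < R / 4)
    (a0 : ∀ i < W.card, ∀ h u, u i = 0 → l i h u = l (i + 1) h u ∧ r i h u = z u)
    (a1 : ∀ i < W.card, ∀ h u, u i = 1 → Ch (ball (z u) (R / 4)) θ (r i h u) (l i h u)) :
    ∃ u, ∀ h, Ch (ball (z u) R) θ (z u) (l W.card h u) := by
  by_contra hcon
  push Not at hcon
  set N := W.card with hN
  set T : X → (ℕ → I) → X → Prop := fun w u y => Ch (ball w (R / 2)) θ (z u) y with hT
  set G : X → ℕ → (ℕ → I) → Prop := fun w i u =>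
    ∀ h, (T w u (l i h u) ↔ T w u (l (i + 1) h u)) ∧ T w u (r i h u) with hG
  have loc : ∀ w u, dist (z u) w < R / 4 →
      ∀ᶠ v in 𝓝 u, dist (z v) w < R / 4 ∧ ∀ i : Fin N, (G w i v ↔ G w i u) := by
    intro w u hu
    refine Eventually.and ((isOpen_lt (by fun_prop) continuous_const).mem_nhds hu)
      (eventually_all.2 fun i => ?_)
    have : ∀ᶠ v in 𝓝 u, ∀ h, ((T w v (l i h v) ↔ T w u (l i h u)) ∧
        (T w v (l (i + 1) h v) ↔ T w u (l (i + 1) h u))) ∧ (T w v (r i h v) ↔ T w u (r i h u)) :=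
      eventually_all.2 fun h => ((ch_const hθ hz (hl i h) (cl i i.2.le h) hu).and
        (ch_const hθ hz (hl (i + 1) h) (cl (i + 1) i.2 h) hu)).and
        (ch_const hθ hz (hr i h) (cr i i.2 h) hu)
    filter_upwards [this] with v hv
    exact forall_congr' fun h => by rw [(hv h).1.1, (hv h).1.2, (hv h).2]
  obtain ⟨t, ht⟩ := cube_cover (0 : I) 1 N (fun k => {u | ∃ w ∈ W, dist (z u) w < R / 4 ∧
      (∀ i < N, k ≤ i → G w i u) ∧ ∀ j < N, k = j + 1 → ¬ G w j u})
    (fun k => isOpen_iff_mem_nhds.2 (by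
      rintro u ⟨w, hw, h1, h2, h3⟩
      filter_upwards [loc w u h1] with v hv
      exact ⟨w, hw, hv.1, fun i hi hk => (hv.2 ⟨i, hi⟩).2 (h2 i hi hk),
        fun j hj hk h => h3 j hj hk ((hv.2 ⟨j, hj⟩).1 h)⟩))
    (fun u => by
      classical
      obtain ⟨w, hw, hu⟩ := hW u
      have hex : ∃ k : ℕ, ∀ i < N, k ≤ i → G w i u := ⟨N, fun i hi h => absurd hi (not_lt.2 h)⟩
      refine ⟨Nat.find hex, Nat.find_min' hex fun i hi h => absurd hi (not_lt.2 h), w, hw, hu,
        Nat.find_spec hex, fun j hj hk h => ?_⟩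
      refine Nat.find_min hex (m := j) (by omega) fun i hi hji => ?_
      rcases hji.eq_or_lt with rfl | hji
      · exact h
      · exact Nat.find_spec hex i hi (by omega))
    (by
      rintro k hk u ⟨w, -, h1, -, h3⟩ hu
      refine h3 k hk rfl fun h => ?_
      rw [(a0 k hk h u hu).1, (a0 k hk h u hu).2]
      exact ⟨Iff.rfl, Ch.refl (mem_ball.2 (by linarith [dist_nonneg (x := z u) (y := w)]))⟩)
    (by
      rintro k hk u ⟨w, -, h1, h2, -⟩ hu
      obtain ⟨h, hh⟩ := hcon u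
      have s : ∀ d, k + d ≤ N → T w u (l (k + d) h u) := by
        intro d
        induction d with
        | zero =>
          exact fun _ => Ch.trans (h2 k hk le_rfl h).2
            ((a1 k hk h u hu).mono (ball_subset_ball' (by linarith)) le_rfl)
        | succ d ih => exact fun hd => (h2 (k + d) (by omega) (by omega) h).1.1 (ih (by omega))
      have s' := s (N - k) (by omega)
      rw [show k + (N - k) = N by omega] at s'
      refine hh (Ch.mono (ball_subset_ball' ?_) le_rfl s')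
      rw [dist_comm]
      linarith [dist_nonneg (x := z u) (y := w)])
  have : Nonempty X := ⟨z t⟩
  choose! w hw _ hG' hB using ht
  have key : ∀ k k', k < k' → k' ≤ N → w k ≠ w k' := by
    intro k k' hk hk' hww
    obtain ⟨j, rfl⟩ : ∃ j, k' = j + 1 := ⟨k' - 1, by omega⟩
    exact hB _ hk' j (by omega) rfl (hww ▸ hG' k (by omega) j (by omega) (by omega))
  obtain ⟨k, hk, k', hk', hne, hww⟩ := Finset.exists_ne_map_eq_of_card_lt_of_maps_to
    (s := Finset.range (N + 1)) (t := W) (by simp [hN]) (f := w)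
    fun k hk => by simpa using hw k (by simpa [Nat.lt_succ_iff] using hk)
  rw [Finset.mem_range, Nat.lt_succ_iff] at hk hk'
  rcases lt_or_gt_of_ne hne with h | h
  · exact key k k' h hk' hww
  · exact key k' k h hk hww.symm

/-- a path whose near paths have a somewhere dense set of end points -/
lemma ample [CompactSpace X] [PathConnectedSpace X] (e : X) {s : ℝ} (hs : 0 < s) :
    ∃ γ : C(I, X), γ 0 = e ∧ ∃ η > 0, ∀ y, dist y (γ 1) < η → ∀ θ > 0,
      ∃ γ' : C(I, X), γ' 0 = e ∧ dist γ' γ < s ∧ dist (γ' 1) y < θ := by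
  obtain ⟨T, -, hT, hc⟩ := TopologicalSpace.countable_cover_nhdsWithin
    (s := {γ : C(I, X) | γ 0 = e}) (f := fun γ => ball γ (s / 2))
    fun γ _ => mem_nhdsWithin_of_mem_nhds (ball_mem_nhds _ (half_pos hs))
  have := hT.to_subtype
  set E : C(I, X) → Set X := fun t => {y | ∃ γ : C(I, X), γ 0 = e ∧ dist γ t < s / 2 ∧ γ 1 = y}
  obtain ⟨t, x, hx⟩ := nonempty_interior_of_iUnion_of_closed (f := fun t : T => closure (E t))
    (fun t => isClosed_closure) (by
      refine eq_univ_of_forall fun y => ?_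
      obtain ⟨γ⟩ := PathConnectedSpace.joined e y
      obtain ⟨t, ht, hy⟩ := mem_iUnion₂.1 (hc (show γ.toContinuousMap ∈ _ from γ.source))
      exact mem_iUnion.2 ⟨⟨t, ht⟩, subset_closure ⟨_, γ.source, hy, γ.target⟩⟩)
  obtain ⟨_, hW, γ, g0, g1, rfl⟩ :=
    _root_.mem_closure_iff.1 (interior_subset hx) _ isOpen_interior hx
  obtain ⟨η, hη, hb⟩ := Metric.mem_nhds_iff.1 (mem_interior_iff_mem_nhds.1 hW)
  refine ⟨γ, g0, η, hη, fun y hy θ hθ => ?_⟩
  obtain ⟨_, ⟨γ', k0, k1, rfl⟩, hlt⟩ := Metric.mem_closure_iff.1 (hb (mem_ball.2 hy)) θ hθ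
  exact ⟨γ', k0, by linarith [dist_triangle_right γ' γ t.1], by rwa [dist_comm]⟩

/-- the stages `k i`, ..., `k (i + j - 1)` applied to a point -/
def run (k : ℕ → X → X) (i : ℕ) : ℕ → X → X
  | 0, y => y
  | j + 1, y => k (i + j) (run k i j y)

omit [MetricSpace X] in
lemma run_succ (k : ℕ → X → X) (i j : ℕ) (y : X) :
    run k i (j + 1) y = run k (i + 1) j (k i y) := by
  induction j with
  | zero => rfl
  | succ j ih => rw [run, ih, run, show i + (j + 1) = i + 1 + j by omega]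

lemma run_unif {K : Set (X → X)}
    (hK : ∀ ε > 0, ∃ δ > 0, ∀ f ∈ K, ∀ y y', dist y y' < δ → dist (f y) (f y') < ε) (n : ℕ) :
    ∀ ε > 0, ∃ δ > 0, ∀ k : ℕ → X → X, (∀ i, k i ∈ K) → ∀ i, ∀ j ≤ n, ∀ y y',
      dist y y' < δ → dist (run k i j y) (run k i j y') < ε := by
  induction n with
  | zero =>
    refine fun ε hε => ⟨ε, hε, fun k _ i j hj y y' h => ?_⟩
    rwa [Nat.le_zero.1 hj]
  | succ n ih =>
    intro ε hε
    obtain ⟨δ, hδ, h1⟩ := hK ε hε
    obtain ⟨δ', hδ', h2⟩ := ih _ (lt_min hε hδ)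
    refine ⟨δ', hδ', fun k hk i j hj y y' h => ?_⟩
    rcases hj.eq_or_lt with rfl | hj
    · exact h1 _ (hk _) _ _ ((h2 k hk i n le_rfl y y' h).trans_le (min_le_right _ _))
    · exact (h2 k hk i j (by omega) y y' h).trans_le (min_le_left _ _)

lemma run_cont {k : U → ℕ → X → X}
    (hk : ∀ i, ∀ y : U → X, Continuous y → Continuous fun u => k u i (y u)) (i j : ℕ)
    {y : U → X} (hy : Continuous y) : Continuous fun u => run (k u) i j (y u) := by
  induction j with
  | zero => exact hy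
  | succ j ih => exact hk _ _ ih

end Pool.Agent.MP_df941e_gt
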