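import Pool.Agent.MP_df941e_gt.Slot

/-!
The stages built from a ternary operation: each stage feeds the operation with a path that ends
at the current point.
-/

set_option autoImplicit false

open Metric Set Filter Topology unitInterval

namespace Pool.Agent.MP_df941e_gt

variable {X : Type*} [MetricSpace X] {U : Type*} [TopologicalSpace U]

/-- the nearest point of the unit interval -/
noncomputable def pr (t : ℝ) : I := projIcc 0 1 zero_le_one t

lemma pr_cont : Continuous pr := continuous_projIcc (h := zero_le_one)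

lemma pr_zero : pr 0 = 0 := projIcc_left _

lemma pr_one : pr 1 = 1 := projIcc_right _

variable (F : C(X × X × X, X)) (H : C(X × I, X)) (γ : C(I, X))

/-- first the homotopy, then the operation -/
noncomputable def stg (τ : ℝ) (a b y : X) : X :=
  if τ ≤ 1 / 3 then H (y, pr (3 * τ)) else F (a, b, y)

/-- first the path `γ`, then the track of `x` along the segment from `0` to `u` -/
noncomputable def lf (x : (ℕ → I) → X) (u : ℕ → I) (τ : ℝ) : X :=
  if τ ≤ 2 / 3 then γ (pr (3 * τ - 1)) else x fun j => pr (3 * τ - 2) * u j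

/-- the point after `i` stages -/
noncomputable def xs : ℕ → (ℕ → I) → X
  | 0, _ => γ 1
  | i + 1, u => stg F H (u i) (lf γ (xs i) u (u i)) (lf γ (xs i) u (u i)) (xs i u)

/-- the stage maps -/
noncomputable def ks (u : ℕ → I) (i : ℕ) (y : X) : X :=
  stg F H (u i) (lf γ (xs F H γ i) u (u i)) (lf γ (xs F H γ i) u (u i)) y

lemma run_xs (u : ℕ → I) (i j : ℕ) :
    run (ks F H γ u) i j (xs F H γ i u) = xs F H γ (i + j) u := by
  induction j with
  | zero => rfl
  | succ j ih => rw [run, ih]; rfl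

variable {F H γ}

lemma stg_cont {e : X} (h1 : ∀ z, H (z, 1) = F (e, e, z)) {τ : U → ℝ} {a b y : U → X}
    (hτ : Continuous τ) (ha : Continuous a) (hb : Continuous b) (hy : Continuous y)
    (h : ∀ u, τ u = 1 / 3 → a u = e ∧ b u = e) :
    Continuous fun u => stg F H (τ u) (a u) (b u) (y u) := by
  have := pr_cont
  refine Continuous.if_le (by fun_prop) (by fun_prop) hτ continuous_const fun u hu => ?_
  rw [(h u hu).1, (h u hu).2, hu, show (3 : ℝ) * (1 / 3) = 1 by norm_num, pr_one, h1]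

lemma scale_cont (i : ℕ) :
    Continuous fun u : ℕ → I => fun j => pr (3 * (u i : ℝ) - 2) * u j := by
  have := pr_cont
  refine continuous_pi fun j => Continuous.subtype_mk ?_ _
  fun_prop

lemma scale_zero {u : ℕ → I} {τ : ℝ} (hu : τ = 2 / 3) :
    (fun j => pr (3 * τ - 2) * u j) = fun _ => 0 := by
  funext j
  rw [hu, show (3 : ℝ) * (2 / 3) - 2 = 0 by norm_num, pr_zero, zero_mul]

lemma lf_cont {x : (ℕ → I) → X} (hx : Continuous x) (h0 : x (fun _ => 0) = γ 1) (i : ℕ) :
    Continuous fun u => lf γ x u (u i) := by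
  have := pr_cont
  refine Continuous.if_le (by fun_prop) (hx.comp (scale_cont i)) (by fun_prop) continuous_const
    fun u hu => ?_
  rw [scale_zero hu, h0, hu, show (3 : ℝ) * (2 / 3) - 1 = 1 by norm_num, pr_one]

lemma lf_third {x : (ℕ → I) → X} {u : ℕ → I} {τ : ℝ} (h : τ = 1 / 3) : lf γ x u τ = γ 0 := by
  rw [lf, if_pos (by rw [h]; norm_num), h, show (3 : ℝ) * (1 / 3) - 1 = 0 by norm_num, pr_zero]

lemma stg_zero (h0 : ∀ z, H (z, 0) = z) (a b y : X) : stg F H ((0 : I) : ℝ) a b y = y := by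
  rw [stg, if_pos (by norm_num)]
  simp [pr_zero, h0]

lemma xs_cont (h0 : ∀ z, H (z, 0) = z) (h1 : ∀ z, H (z, 1) = F (γ 0, γ 0, z)) (i : ℕ) :
    Continuous (xs F H γ i) ∧ xs F H γ i (fun _ => 0) = γ 1 := by
  induction i with
  | zero => exact ⟨continuous_const, rfl⟩
  | succ i ih =>
    have := lf_cont ih.1 ih.2 i
    exact ⟨stg_cont h1 (by fun_prop) this this ih.1 fun u hu => ⟨lf_third hu, lf_third hu⟩,
      (stg_zero h0 _ _ _).trans ih.2⟩

theorem lc_of_tern [CompactSpace X] [PathConnectedSpace X]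
    (hom : ∀ x y : X, ∃ h : X ≃ₜ X, h x = y) (F : C(X × X × X, X)) (e : X) (H : C(X × I, X))
    (h0 : ∀ z, H (z, 0) = z) (h1 : ∀ z, H (z, 1) = F (e, e, z))
    (hF : ∀ ε > (0 : ℝ), ∃ δ > (0 : ℝ), ∀ x y, dist x y < δ → ∃ S : Set X, IsPreconnected S ∧
      F (x, y, x) ∈ S ∧ F (x, x, y) ∈ S ∧ S ⊆ ball (F (x, x, x)) ε) :
    LocallyConnectedSpace X := by
  refine lc_of_chains hom fun R hR => ?_
  by_contra hcon
  push Not at hcon
  have hR4 : 0 < R / 4 := by positivity
  obtain ⟨W, -, hWf, hW⟩ := finite_cover_balls_of_compact (isCompact_univ (X := X)) hR4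
  set N := hWf.toFinset.card with hN
  have uF := Metric.uniformContinuous_iff.1
    (CompactSpace.uniformContinuous_of_continuous F.continuous)
  have uH := Metric.uniformContinuous_iff.1
    (CompactSpace.uniformContinuous_of_continuous H.continuous)
  have u2 : ∀ ε > 0, ∃ δ > 0, ∀ a b b' y : X, dist b b' < δ →
      dist (F (a, b, y)) (F (a, b', y)) < ε := fun ε hε => by
    obtain ⟨δ, hδ, h⟩ := uF ε hε
    exact ⟨δ, hδ, fun a b b' y hb => h (by simpa [hδ] using hb)⟩
  set K : Set (X → X) := {f | (∃ t, f = fun y => H (y, t)) ∨ ∃ a, f = fun y => F (a, a, y)}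
  have uK := run_unif (K := K) (fun ε hε => by
    obtain ⟨δ, hδ, h⟩ := uF ε hε
    obtain ⟨δ', hδ', h'⟩ := uH ε hε
    refine ⟨min δ δ', by positivity, ?_⟩
    rintro f (⟨t, rfl⟩ | ⟨a, rfl⟩) y y' hy
    · exact h' (by simpa [hδ'] using (lt_min_iff.1 hy).2)
    · exact h (by simpa [hδ] using (lt_min_iff.1 hy).1)) N
  obtain ⟨δ, hδ, hrun⟩ := uK _ hR4
  obtain ⟨s₁, hs₁, hs1⟩ := u2 δ hδ
  obtain ⟨s₂, hs₂, hs2⟩ := hF δ hδ
  obtain ⟨γ, rfl, η₁, hη₁, hγ⟩ := ample e hs₁
  set s := min (min s₁ s₂) (min (min δ η₁) R) with hs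
  have hs0 : 0 < s := by positivity
  have e1 : s ≤ s₁ := (min_le_left _ _).trans (min_le_left _ _)
  have e2 : s ≤ s₂ := (min_le_left _ _).trans (min_le_right _ _)
  have e3 : s ≤ δ := (min_le_right _ _).trans ((min_le_left _ _).trans (min_le_left _ _))
  have e4 : s ≤ η₁ := (min_le_right _ _).trans ((min_le_left _ _).trans (min_le_right _ _))
  have e5 : s ≤ R := (min_le_right _ _).trans (min_le_right _ _)
  obtain ⟨η, hη, hηs, hΦ⟩ := finite_family hom s hs0
  obtain ⟨θ, hθ, hbad⟩ := hcon η hη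
  obtain ⟨Φ, hΦf, hΦ⟩ := hΦ θ hθ
  obtain ⟨δ', hδ', hrun'⟩ := uK _ hθ
  obtain ⟨s₃, hs₃, hs3⟩ := u2 δ' hδ'
  set ι := {h : X ≃ₜ X // h ∈ Φ ∧ ∀ z, dist (h z) z < s}
  have : Finite ι := Set.Finite.to_subtype (hΦf.subset fun h hh => hh.1)
  choose A A0 A1 A2 using fun h : ι => hγ (h.1 (γ 1)) ((h.2.2 _).trans_le e4) s₃ hs₃
  have cx := xs_cont h0 h1
  have cq := fun i => lf_cont (cx i).1 (cx i).2 i
  have ck : ∀ i, ∀ y : (ℕ → I) → X, Continuous y → Continuous fun u => ks F H γ u i (y u) :=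
    fun i y hy => stg_cont h1 (by fun_prop) (cq i) (cq i) hy fun u hu => ⟨lf_third hu, lf_third hu⟩
  have mk : ∀ u i, ks F H γ u i ∈ K := by
    intro u i
    by_cases hu : (u i : ℝ) ≤ 1 / 3
    · exact Or.inl ⟨_, funext fun y => if_pos hu⟩
    · exact Or.inr ⟨_, funext fun y => if_neg hu⟩
  have fin : ∀ i ≤ N, ∀ u y, dist y (xs F H γ i u) < δ →
      dist (run (ks F H γ u) i (N - i) y) (xs F H γ N u) < R / 4 := by
    intro i hi u y hy
    have := hrun _ (mk u) i (N - i) (Nat.sub_le _ _) _ _ hy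
    rwa [run_xs, show i + (N - i) = N by omega] at this
  have := pr_cont
  obtain ⟨u, hu⟩ := slots hWf.toFinset hθ (ι := ι) (cx N).1
    (fun u => by simpa using hW (mem_univ (xs F H γ N u)))
    (fun i h u => run (ks F H γ u) i (N - i) (h.1 (xs F H γ i u)))
    (fun i h u => if (u i : ℝ) ≤ 2 / 3 then run (ks F H γ u) (i + 1) (N - (i + 1))
        (stg F H (u i) (lf γ (xs F H γ i) u (u i)) (A h (pr (3 * u i - 1))) (xs F H γ i u))
      else run (ks F H γ u) (i + 1) (N - (i + 1)) (F (lf γ (xs F H γ i) u (u i),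
        h.1 (xs F H γ i fun j => pr (3 * (u i : ℝ) - 2) * u j), xs F H γ i u)))
    (fun i h => Nc.of_cont hθ (run_cont ck _ _ (h.1.continuous.comp (cx i).1)))
    (fun i h => by
      refine Nc.ite hθ (run_cont ck _ _ (stg_cont h1 (by fun_prop) (cq i) (by fun_prop) (cx i).1
        fun u hu => ⟨lf_third hu, ?_⟩)) (run_cont ck _ _ (F.continuous.comp ((cq i).prodMk
          ((h.1.continuous.comp ((cx i).1.comp (scale_cont i))).prodMk (cx i).1))))
        (by fun_prop) fun u hu => ?_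
      · rw [hu, show (3 : ℝ) * (1 / 3) - 1 = 0 by norm_num, pr_zero, A0]
      · refine hrun' _ (mk u) _ _ (Nat.sub_le _ _) _ _ ?_
        rw [stg, if_neg (by rw [hu]; norm_num), scale_zero hu, (cx i).2, hu,
          show (3 : ℝ) * (2 / 3) - 1 = 1 by norm_num, pr_one]
        exact hs3 _ _ _ _ (A2 h))
    (fun i hi h u => fin i hi u _ ((h.2.2 _).trans_le e3))
    (fun i hi h u => by
      by_cases hu : (u i : ℝ) ≤ 2 / 3
      · rw [if_pos hu]
        refine fin (i + 1) hi u _ ?_
        simp only [xs, stg]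
        split_ifs
        · simpa using hδ
        · refine hs1 _ _ _ _ ?_
          rw [lf, if_pos hu]
          exact (ContinuousMap.dist_apply_le_dist _).trans_lt (A1 h)
      · rw [if_neg hu]
        refine fin (i + 1) hi u _ ?_
        simp only [xs, stg]
        rw [if_neg (by linarith)]
        refine hs1 _ _ _ _ ?_
        rw [lf, if_neg hu]
        exact (h.2.2 _).trans_le e1)
    (fun i hi h u hu => by
      have e6 : xs F H γ (i + 1) u = xs F H γ i u := by
        rw [xs, hu, stg_zero h0]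
      constructor
      · rw [show N - i = N - (i + 1) + 1 by omega, run_succ, e6, ks, hu, stg_zero h0]
      · rw [if_pos (by rw [hu]; norm_num), hu, stg_zero h0, ← e6, run_xs,
          show i + 1 + (N - (i + 1)) = N by omega])
    (fun i hi h u hu => by
      have e6 : (fun j => pr (3 * (u i : ℝ) - 2) * u j) = u := by
        funext j
        rw [hu, show (3 : ℝ) * ((1 : I) : ℝ) - 2 = 1 by norm_num, pr_one, one_mul]
      have e7 : ¬ (u i : ℝ) ≤ 2 / 3 := by rw [hu]; norm_num
      have e8 : lf γ (xs F H γ i) u (u i) = xs F H γ i u := by rw [lf, if_neg e7, e6]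
      have e9 : ∀ y, ks F H γ u i y = F (xs F H γ i u, xs F H γ i u, y) := fun y => by
        rw [ks, stg, if_neg (by linarith), e8]
      obtain ⟨S, hS, m1, m2, m3⟩ := hs2 (xs F H γ i u) (h.1 (xs F H γ i u))
        (by rw [dist_comm]; exact (h.2.2 _).trans_le e2)
      rw [if_neg e7, e6, e8, show N - i = N - (i + 1) + 1 by omega, run_succ, e9]
      have cr : Continuous (run (ks F H γ u) (i + 1) (N - (i + 1))) :=
        run_cont (U := X) (k := fun _ => ks F H γ u) (fun j y hy => by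
          rcases mk u j with ⟨t, ht⟩ | ⟨a, ha⟩
          · rw [ht]; fun_prop
          · rw [ha]; fun_prop) _ _ continuous_id
      refine Ch.of_preconnected (hS.image _ cr.continuousOn) ?_ hθ ⟨_, m1, rfl⟩ ⟨_, m2, rfl⟩
      rintro _ ⟨v, hv, rfl⟩
      refine fin (i + 1) hi u v ?_
      have : xs F H γ (i + 1) u = F (xs F H γ i u, xs F H γ i u, xs F H γ i u) := e9 _
      rw [this]
      exact m3 hv)
  obtain ⟨y, hy, hny⟩ := hbad (xs F H γ N u)
  obtain ⟨h, hh, k1, k2⟩ := hΦ _ y hy
  have k3 := hu ⟨h, hh, k1⟩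
  simp only [← hN, Nat.sub_self, run] at k3
  exact hny (k3.trans (.step k3.right (mem_ball'.2 (by linarith)) k2))

end Pool.Agent.MP_df941e_gt
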